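import Mathlib

set_option autoImplicit false

/-! Elements of a number field with given valuations. -/

namespace Pool.Agent.T9h60.OD
open Finset NumberField IsDedekindDomain WithZero

variable {F : Type} [Field F] [NumberField F]

lemma crt (S : Finset (HeightOneSpectrum (𝓞 F))) (e : HeightOneSpectrum (𝓞 F) → ℕ)
    (x : HeightOneSpectrum (𝓞 F) → 𝓞 F) : ∃ y : 𝓞 F, ∀ v ∈ S, y - x v ∈ v.asIdeal ^ e v := by
  obtain ⟨y, hy⟩ := IsDedekindDomain.exists_forall_sub_mem_ideal (s := S) (fun v => v.asIdeal) e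
    (fun v _ => v.prime) (fun v _ w _ hvw h => hvw (HeightOneSpectrum.ext h)) (fun v => x v.1)
  exact ⟨y, fun v hv => hy v hv⟩

/-- uniformizers -/
lemma exists_unif (S : Finset (HeightOneSpectrum (𝓞 F))) (v : HeightOneSpectrum (𝓞 F)) (hv : v ∈ S) :
    ∃ π : F, π ≠ 0 ∧ v.valuation F π = exp (-1 : ℤ) ∧ ∀ w ∈ S, w ≠ v → w.valuation F π = 1 := by
  classical
  obtain ⟨ϖ, hϖ⟩ := v.intValuation_exists_uniformizer
  obtain ⟨y, hy⟩ := crt S (fun w => if w = v then 2 else 1) (fun w => if w = v then ϖ else 1)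
  have h1 := hy v hv
  simp only [if_pos] at h1
  have h2 : v.intValuation (y - ϖ) < v.intValuation ϖ := by
    rw [hϖ]
    refine lt_of_le_of_lt ((v.intValuation_le_pow_iff_mem _ 2).2 h1) ?_
    rw [exp_lt_exp]
    norm_num
  have h3 : v.intValuation y = exp (-1 : ℤ) := by
    have h4 : y = ϖ + (y - ϖ) := by ring
    rw [h4, Valuation.map_add_eq_of_lt_left _ h2, hϖ]
  have h5 : v.valuation F (y : F) = exp (-1 : ℤ) := by
    rw [← h3]
    exact v.valuation_of_algebraMap y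
  refine ⟨y, ?_, h5, fun w hw hwv => ?_⟩
  · intro h6
    rw [h6, map_zero] at h5
    exact exp_ne_zero h5.symm
  · have h6 := hy w hw
    simp only [if_neg hwv, pow_one] at h6
    have h7 : y ∉ w.asIdeal := by
      intro h8
      have h9 := w.asIdeal.sub_mem h8 h6
      rw [sub_sub_cancel] at h9
      exact w.isPrime.ne_top ((Ideal.eq_top_iff_one _).2 h9)
    exact (w.valuation_eq_one_iff_notMem (K := F)).2 h7

/-- **Clearing valuations.** -/
theorem clear {S : Finset (HeightOneSpectrum (𝓞 F))} (hS : S.Nonempty) {n : ℕ} (hn : 0 < n) (x : F) (hx : x ≠ 0)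
    (h : ∀ v ∈ S, ∃ j : ℤ, v.valuation F x = exp ((n : ℤ) * j)) :
    ∃ (c : F) (u : 𝓞 F), c ≠ 0 ∧ algebraMap (𝓞 F) F u = x * c ^ n ∧ ∀ v ∈ S, u ∉ v.asIdeal := by
  classical
  choose! π hπ0 hπ1 hπ2 using exists_unif S
  choose! j hj using h
  obtain ⟨c₁, hc₁⟩ : ∃ c₁ : F, c₁ = ∏ v ∈ S, π v ^ (j v) := ⟨_, rfl⟩
  have hc₁0 : c₁ ≠ 0 := by
    rw [hc₁, prod_ne_zero_iff]
    exact fun v hv => zpow_ne_zero _ (hπ0 v hv)
  have hval : ∀ w ∈ S, w.valuation F c₁ = exp (-(j w)) := by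
    intro w hw
    rw [hc₁, map_prod, prod_eq_single w]
    · rw [map_zpow₀, hπ1 w hw, ← exp_zsmul, smul_eq_mul, mul_neg, mul_one]
    · intro v hv hvw
      rw [map_zpow₀, hπ2 v hv w hw (Ne.symm hvw), one_zpow]
    · intro h1
      exact absurd hw h1
  obtain ⟨y, hy⟩ : ∃ y : F, y = x * c₁ ^ n := ⟨_, rfl⟩
  have hyv : ∀ w ∈ S, w.valuation F y = 1 := by
    intro w hw
    rw [hy, map_mul, map_pow, hj w hw, hval w hw, ← exp_nsmul, ← exp_add, ← exp_zero]
    congr 1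
    rw [nsmul_eq_mul]
    ring
  choose! nn dd hnd using fun (w : HeightOneSpectrum (𝓞 F)) (hw : w ∈ S) =>
    w.exists_primeCompl_mul_eq_of_integer (K := F) y (hyv w hw).le
  choose ee hee using fun w : HeightOneSpectrum (𝓞 F) =>
    crt S (fun _ => 1) (fun w' => if w' = w then (1 : 𝓞 F) else 0)
  obtain ⟨d, hd⟩ : ∃ d : 𝓞 F, d = ∑ w ∈ S, ee w * (dd w : 𝓞 F) := ⟨_, rfl⟩
  have hdv : ∀ w ∈ S, d ∉ w.asIdeal := by
    intro w hw h1
    have h2 : d - (dd w : 𝓞 F) ∈ w.asIdeal := by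
      have h3 : d - (dd w : 𝓞 F) = (ee w - 1) * (dd w : 𝓞 F) + ∑ w' ∈ S.erase w, ee w' * (dd w' : 𝓞 F) := by
        rw [hd, ← add_sum_erase S _ hw]
        ring
      rw [h3]
      refine w.asIdeal.add_mem (w.asIdeal.mul_mem_right _ ?_) (w.asIdeal.sum_mem fun w' hw' =>
        w.asIdeal.mul_mem_right _ ?_)
      · have h4 := hee w w hw
        simpa using h4
      · have h4 := hee w' w hw
        rw [if_neg (fun h5 => (mem_erase.1 hw').1 h5.symm)] at h4
        simpa using h4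
    have h3 := w.asIdeal.sub_mem h1 h2
    rw [sub_sub_cancel] at h3
    exact (dd w).2 h3
  obtain ⟨N, hN⟩ : ∃ N : 𝓞 F, N = ∑ w ∈ S, ee w * nn w := ⟨_, rfl⟩
  have hyd : y * algebraMap (𝓞 F) F d = algebraMap (𝓞 F) F N := by
    rw [hd, hN, map_sum, map_sum, mul_sum]
    apply sum_congr rfl
    intro w hw
    rw [map_mul, map_mul]
    have h1 := hnd w hw
    calc y * (algebraMap (𝓞 F) F (ee w) * algebraMap (𝓞 F) F (dd w))
        = algebraMap (𝓞 F) F (ee w) * (y * algebraMap (𝓞 F) F (dd w)) := by ring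
      _ = _ := by rw [h1]
  have hd0 : algebraMap (𝓞 F) F d ≠ 0 := by
    intro h1
    obtain ⟨w, hw⟩ := hS
    apply hdv w hw
    have h2 : d = 0 := (FaithfulSMul.algebraMap_injective (𝓞 F) F) (h1.trans (map_zero _).symm)
    rw [h2]
    exact w.asIdeal.zero_mem
  refine ⟨c₁ * algebraMap (𝓞 F) F d, d ^ (n - 1) * N, mul_ne_zero hc₁0 hd0, ?_, fun w hw => ?_⟩
  · obtain ⟨n', rfl⟩ : ∃ n', n = n' + 1 := ⟨n - 1, by omega⟩
    rw [Nat.add_sub_cancel, map_mul, map_pow, ← hyd, hy]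
    ring
  · intro h1
    rcases w.isPrime.mem_or_mem h1 with h2 | h2
    · exact hdv w hw (w.isPrime.mem_of_pow_mem _ h2)
    · have h3 : w.valuation F (algebraMap (𝓞 F) F N) < 1 := (w.valuation_lt_one_iff_mem (K := F) N).2 h2
      rw [← hyd, map_mul, hyv w hw, one_mul] at h3
      exact hdv w hw ((w.valuation_lt_one_iff_mem (K := F) d).1 h3)

end Pool.Agent.T9h60.OD
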