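import Mathlib
import Pool.Agent.R925.FD.Main
import Pool.Agent.Q68.SX.ResB

set_option autoImplicit false

/-! Local points of the coverings over the completions of a number field. -/

namespace Pool.Agent.T9h60.OD
open Finset Polynomial NumberField IsDedekindDomain WithZero
open Pool.Agent.R925.FD (hom hom_map hom_mul hom_one hom_div hom_zero_right)

/-- Coprime polynomials have no common zero in fields of large characteristic, also at infinity. -/
lemma coprime_any (f₁ f₂ : ℤ[X]) (h0 : f₁ ≠ 0)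
    (h : IsCoprime (f₁.map (Int.castRingHom ℚ)) (f₂.map (Int.castRingHom ℚ))) :
    ∃ N : ℤ, N ≠ 0 ∧ ∀ (κ : Type) [Field κ], (N : κ) ≠ 0 → ∀ u v : κ, (u ≠ 0 ∨ v ≠ 0) →
      hom f₁ u v = 0 → hom f₂ u v ≠ 0 := by
  obtain ⟨a, b, hab⟩ := h
  obtain ⟨da, hdam, hda⟩ := IsLocalization.integerNormalization_spec (nonZeroDivisors ℤ) a
  obtain ⟨db, hdbm, hdb⟩ := IsLocalization.integerNormalization_spec (nonZeroDivisors ℤ) b
  set a' := IsLocalization.integerNormalization (nonZeroDivisors ℤ) a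
  set b' := IsLocalization.integerNormalization (nonZeroDivisors ℤ) b
  have hda' : map (Int.castRingHom ℚ) a' = C ((da : ℤ) : ℚ) * a := by
    rw [← algebraMap_int_eq, hda, zsmul_eq_mul, map_intCast (C : ℚ →+* ℚ[X])]
  have hdb' : map (Int.castRingHom ℚ) b' = C ((db : ℤ) : ℚ) * b := by
    rw [← algebraMap_int_eq, hdb, zsmul_eq_mul, map_intCast (C : ℚ →+* ℚ[X])]
  have hrel : C db * a' * f₁ + C da * b' * f₂ = C (da * db) := by
    apply Polynomial.map_injective (Int.castRingHom ℚ) (Int.castRingHom ℚ).injective_int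
    rw [Polynomial.map_add, Polynomial.map_mul, Polynomial.map_mul, Polynomial.map_mul,
      Polynomial.map_mul, hda', hdb', map_C, map_C, map_C]
    simp only [eq_intCast, Int.cast_mul, C_mul]
    linear_combination (C ((da : ℤ) : ℚ) * C ((db : ℤ) : ℚ)) * hab
  have hd : da * db ≠ 0 := mul_ne_zero (nonZeroDivisors.ne_zero hdam) (nonZeroDivisors.ne_zero hdbm)
  have hlc : f₁.leadingCoeff ≠ 0 := leadingCoeff_ne_zero.2 h0
  refine ⟨f₁.leadingCoeff * (da * db), mul_ne_zero hlc hd, ?_⟩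
  intro κ _ hN u v huv h1 h2
  rw [Int.cast_mul] at hN
  by_cases hv : v = 0
  · subst hv
    rw [hom_zero_right] at h1
    have hu : u ≠ 0 := huv.resolve_right (fun h => h rfl)
    rcases mul_eq_zero.1 h1 with h3 | h3
    · exact left_ne_zero_of_mul hN h3
    · exact pow_ne_zero _ hu h3
  · rw [hom_div _ _ hv] at h1 h2
    have hvn : ∀ n : ℕ, v ^ n ≠ 0 := fun n => pow_ne_zero n hv
    have h3 := (mul_eq_zero.1 h1).resolve_left (hvn _)
    have h4 := (mul_eq_zero.1 h2).resolve_left (hvn _)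
    have h5 := congrArg (eval₂ (Int.castRingHom κ) (u / v)) hrel
    rw [eval₂_add, eval₂_mul, eval₂_mul (q := f₂), h3, h4, mul_zero, mul_zero, add_zero,
      eval₂_C, eq_intCast] at h5
    exact right_ne_zero_of_mul hN h5.symm

lemma exp_log_aux {A B C : WithZero (Multiplicative ℤ)} {n : ℕ} (hA : A ≠ 0) (hC : C ≠ 0)
    (h : A * B ^ n = C ^ n) (hn : 0 < n) : ∃ j : ℤ, A = exp ((n : ℤ) * j) := by
  have hB : B ≠ 0 := by
    intro h1
    rw [h1, zero_pow hn.ne', mul_zero] at h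
    exact pow_ne_zero n hC h.symm
  refine ⟨log C - log B, ?_⟩
  have h1 : log (A * B ^ n) = log (C ^ n) := by rw [h]
  rw [log_mul hA (pow_ne_zero n hB), log_pow, log_pow] at h1
  rw [← exp_log hA]
  congr 1
  rw [nsmul_eq_mul, nsmul_eq_mul] at h1
  linarith

lemma prod_exp {ι : Type} (s : Finset ι) (f : ι → ℤ) :
    ∏ i ∈ s, (exp (f i) : WithZero (Multiplicative ℤ)) = exp (∑ i ∈ s, f i) := by
  classical
  induction s using Finset.induction_on with
  | empty => simp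
  | insert a s ha ih => rw [prod_insert ha, sum_insert ha, ih, exp_add]

variable {F : Type} [Field F] [NumberField F]

/-- A point over the completion. -/
def LocalPoint {K : Type} (n m : ℕ) (a : ℤ) (g : K → ℤ[X]) (h : ℤ[X]) (δ : K → F) (E : Type) [Field E]
    [Algebra F E] : Prop :=
  ∃ z w x : E, (z ≠ 0 ∨ w ≠ 0) ∧ (a : E) * x ^ m = hom h z w ∧
    ∀ k, ∃ y : E, hom (g k) z w = algebraMap F E (δ k) * y ^ n

lemma val_F (v : HeightOneSpectrum (𝓞 F)) (k : F) :
    Valued.v (algebraMap F (v.adicCompletion F) k) = v.valuation F k := by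
  rw [HeightOneSpectrum.algebraMap_adicCompletion]
  exact HeightOneSpectrum.valuedAdicCompletion_eq_valuation' v _

/-- **Local points.** -/
theorem local_main (v : HeightOneSpectrum (𝓞 F)) {K : Type} [Fintype K] {n m : ℕ} (hn : 0 < n)
    (hm : 0 < m) {g : K → ℤ[X]} {h : ℤ[X]} (hdeg : ∀ k, n ∣ (g k).natDegree) (hdegh : m ∣ h.natDegree)
    {δ : K → F} (hδ : ∀ k, δ k ≠ 0) {b : ℤ} {t : F} (ht : ∏ k, δ k = b * t ^ n)
    (hb : v.valuation F (b : F) = 1) (a : ℤ)
    (hNC : ∀ z w : IsLocalRing.ResidueField (v.adicCompletionIntegers F), (z ≠ 0 ∨ w ≠ 0) →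
      (∀ k l, k ≠ l → hom (g k) z w = 0 → hom (g l) z w ≠ 0) ∧ ∀ k, hom h z w = 0 → hom (g k) z w ≠ 0)
    (hpt : LocalPoint n m a g h δ (v.adicCompletion F)) :
    (∀ k, ∃ j : ℤ, v.valuation F (δ k) = exp ((n : ℤ) * j)) ∧
      ((¬ ∃ j : ℤ, v.valuation F (a : F) = exp ((m : ℤ) * j)) → ∃ z₀ w₀ : 𝓞 F, (z₀ ∉ v.asIdeal ∨ w₀ ∉ v.asIdeal) ∧
        hom h z₀ w₀ ∈ v.asIdeal ∧ ∀ (k : K) (c : F) (u : 𝓞 F), c ≠ 0 → algebraMap (𝓞 F) F u = δ k * c ^ n →
          u ∉ v.asIdeal → ∃ t₀ : 𝓞 F, hom (g k) z₀ w₀ - u * t₀ ^ n ∈ v.asIdeal) := by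
  classical
  obtain ⟨z, w, x, hzw, hx, hy⟩ := hpt
  let Kv := v.adicCompletion F
  let O := v.adicCompletionIntegers F
  let V : Valuation Kv (WithZero (Multiplicative ℤ)) := Valued.v
  let κ := IsLocalRing.ResidueField O
  let ρ : O →+* κ := IsLocalRing.residue O
  let ι : O →+* Kv := O.subtype
  have hVρ : ∀ s : O, ρ s ≠ 0 → V (s : Kv) = 1 := by
    intro s hs
    have h1 := Pool.Agent.Q68.SX.residue_eq_zero_iff (K := F) v s
    have h2 := Pool.Agent.Q68.SX.le_one (K := F) v s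
    by_contra h3
    exact hs (h1.2 (lt_of_le_of_ne h2 h3))
  -- the scaling
  obtain ⟨l, hl0, hlz, hlw, hl1⟩ : ∃ l : Kv, l ≠ 0 ∧ V (z / l) ≤ 1 ∧ V (w / l) ≤ 1 ∧ (z / l = 1 ∨ w / l = 1) := by
    rcases le_total (V w) (V z) with h1 | h1
    · have hz : z ≠ 0 := by
        intro h2
        rw [h2, map_zero, le_zero_iff, map_eq_zero] at h1
        rcases hzw with h3 | h3
        · exact h3 h2
        · exact h3 h1
      have hVz : V z ≠ 0 := (_root_.map_ne_zero V).2 hz
      refine ⟨z, hz, ?_, ?_, Or.inl (div_self hz)⟩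
      · rw [div_self hz, map_one]
      · rw [map_div₀]
        exact (div_le_one₀ (zero_lt_iff.2 hVz)).2 h1
    · have hw : w ≠ 0 := by
        intro h2
        rw [h2, map_zero, le_zero_iff, map_eq_zero] at h1
        rcases hzw with h3 | h3
        · exact h3 h1
        · exact h3 h2
      have hVw : V w ≠ 0 := (_root_.map_ne_zero V).2 hw
      refine ⟨w, hw, ?_, ?_, Or.inr (div_self hw)⟩
      · rw [map_div₀]
        exact (div_le_one₀ (zero_lt_iff.2 hVw)).2 h1
      · rw [div_self hw, map_one]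
  have hVl : V l ≠ 0 := (_root_.map_ne_zero V).2 hl0
  let z' : O := ⟨z / l, hlz⟩
  let w' : O := ⟨w / l, hlw⟩
  have hzw' : ρ z' ≠ 0 ∨ ρ w' ≠ 0 := by
    rcases hl1 with h1 | h1
    · left
      have h2 : z' = 1 := Subtype.ext h1
      rw [h2, map_one]
      exact one_ne_zero
    · right
      have h2 : w' = 1 := Subtype.ext h1
      rw [h2, map_one]
      exact one_ne_zero
  -- the values
  have hval : ∀ f : ℤ[X], hom f z w = l ^ f.natDegree * ((hom f z' w' : O) : Kv) := by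
    intro f
    have h1 : ((hom f z' w' : O) : Kv) = hom f (z / l) (w / l) := hom_map f ι z' w'
    rw [h1, ← hom_mul, mul_div_cancel₀ _ hl0, mul_div_cancel₀ _ hl0]
  have hres : ∀ f : ℤ[X], ρ (hom f z' w') = hom f (ρ z') (ρ w') := fun f => hom_map f ρ z' w'
  obtain ⟨hNC1, hNC2⟩ := hNC (ρ z') (ρ w') hzw'
  have hδV : ∀ k, V (algebraMap F Kv (δ k)) = v.valuation F (δ k) := fun k => val_F v (δ k)
  have hδ0 : ∀ k, v.valuation F (δ k) ≠ 0 := fun k => (_root_.map_ne_zero _).2 (hδ k)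
  have hk1 : ∀ k, hom (g k) (ρ z') (ρ w') ≠ 0 → ∃ j : ℤ, v.valuation F (δ k) = exp ((n : ℤ) * j) := by
    intro k hk
    obtain ⟨y, hyk⟩ := hy k
    obtain ⟨q, hq⟩ := hdeg k
    have h1 : V ((hom (g k) z' w' : O) : Kv) = 1 := hVρ _ (by rw [hres]; exact hk)
    have h2 : V (algebraMap F Kv (δ k)) * V y ^ n = (V l ^ q) ^ n := by
      rw [← map_pow, ← map_mul, ← hyk, hval, map_mul, h1, mul_one, map_pow, hq, mul_comm n q, pow_mul]
    rw [hδV] at h2
    exact exp_log_aux (hδ0 k) (pow_ne_zero q hVl) h2 hn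
  have hall : ∀ k, ∃ j : ℤ, v.valuation F (δ k) = exp ((n : ℤ) * j) := by
    intro k
    by_cases hk : hom (g k) (ρ z') (ρ w') = 0
    · choose! j hj using hk1
      have ht0 : t ≠ 0 := by
        intro h1
        rw [h1, zero_pow hn.ne', mul_zero, prod_eq_zero_iff] at ht
        obtain ⟨l, -, hl⟩ := ht
        exact hδ l hl
      have h1 := congrArg (v.valuation F) ht
      rw [map_prod, map_mul, hb, one_mul, map_pow, ← mul_prod_erase univ _ (mem_univ k)] at h1
      have h2 : ∏ l ∈ univ.erase k, v.valuation F (δ l) = (exp (∑ l ∈ univ.erase k, j l)) ^ n := by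
        rw [← exp_nsmul, nsmul_eq_mul, mul_sum, ← prod_exp]
        apply prod_congr rfl
        intro l hl
        exact hj l (hNC1 k l (fun h3 => (mem_erase.1 hl).1 h3.symm) hk)
      rw [h2] at h1
      exact exp_log_aux (hδ0 k) ((_root_.map_ne_zero _).2 ht0) h1 hn
    · exact hk1 k hk
  refine ⟨hall, fun ha => ?_⟩
  have hh : hom h (ρ z') (ρ w') = 0 := by
    by_contra hh
    apply ha
    obtain ⟨q, hq⟩ := hdegh
    have h1 : V ((hom h z' w' : O) : Kv) = 1 := hVρ _ (by rw [hres]; exact hh)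
    have h2 : V (a : Kv) * V x ^ m = (V l ^ q) ^ m := by
      rw [← map_pow, ← map_mul, hx, hval, map_mul, h1, mul_one, map_pow, hq, mul_comm m q, pow_mul]
    have h3 : V (a : Kv) = v.valuation F (a : F) := by
      have e : (a : Kv) = algebraMap F Kv (a : F) := (map_intCast _ _).symm
      rw [e]
      exact val_F v _
    rw [h3] at h2
    refine exp_log_aux ?_ (pow_ne_zero q hVl) h2 hm
    intro h4
    rw [h4, zero_mul] at h2
    exact pow_ne_zero m (pow_ne_zero q hVl) h2.symm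
  obtain ⟨z₀, hz₀⟩ := Pool.Agent.Q68.SX.residue_surj (K := F) v (ρ z')
  obtain ⟨w₀, hw₀⟩ := Pool.Agent.Q68.SX.residue_surj (K := F) v (ρ w')
  let ψ : 𝓞 F →+* κ := ρ.comp (algebraMap (𝓞 F) O)
  have hψ0 : ∀ r : 𝓞 F, ψ r = 0 ↔ r ∈ v.asIdeal := by
    intro r
    have h1 := Pool.Agent.Q68.SX.residue_eq_zero_iff (K := F) v (algebraMap (𝓞 F) O r)
    rw [← HeightOneSpectrum.valuation_lt_one_iff_mem (K := F)]
    refine h1.trans ?_
    have h2 : ((algebraMap (𝓞 F) O r : O) : Kv) = algebraMap F Kv (algebraMap (𝓞 F) F r) := rfl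
    rw [h2, val_F]
  have hz₀' : ψ z₀ = ρ z' := hz₀
  have hw₀' : ψ w₀ = ρ w' := hw₀
  refine ⟨z₀, w₀, ?_, ?_, ?_⟩
  · rw [← hψ0, ← hψ0, hz₀', hw₀']
    exact hzw'
  · rw [← hψ0, hom_map, hz₀', hw₀']
    exact hh
  · intro k c u hc hu huv
    obtain ⟨y, hyk⟩ := hy k
    obtain ⟨q, hq⟩ := hdeg k
    have hgk := hNC2 k hh
    have h1 : V ((hom (g k) z' w' : O) : Kv) = 1 := hVρ _ (by rw [hres]; exact hgk)
    have hc' : algebraMap F Kv c ≠ 0 := (_root_.map_ne_zero _).2 hc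
    obtain ⟨s, hs⟩ : ∃ s : Kv, s = y / (algebraMap F Kv c * l ^ q) := ⟨_, rfl⟩
    have h2 : ((hom (g k) z' w' : O) : Kv) = algebraMap F Kv (algebraMap (𝓞 F) F u) * s ^ n := by
      have h3 := hyk
      rw [hval, hq] at h3
      rw [hu, map_mul, map_pow, hs, div_pow, mul_pow, ← pow_mul, mul_comm q n]
      have h4 : l ^ (n * q) ≠ 0 := pow_ne_zero _ hl0
      have h5 : algebraMap F Kv c ^ n ≠ 0 := pow_ne_zero _ hc'
      field_simp
      linear_combination h3
    have hVu : V (algebraMap F Kv (algebraMap (𝓞 F) F u)) = 1 := by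
      rw [val_F]
      exact (v.valuation_eq_one_iff_notMem (K := F)).2 huv
    have h3 : V s = 1 := by
      have h4 := congrArg V h2
      rw [h1, map_mul, hVu, one_mul, map_pow] at h4
      exact (pow_eq_one_iff_of_nonneg zero_le hn.ne').1 h4.symm
    let s' : O := ⟨s, h3.le⟩
    obtain ⟨t₀, ht₀⟩ := Pool.Agent.Q68.SX.residue_surj (K := F) v (ρ s')
    have ht₀' : ψ t₀ = ρ s' := ht₀
    refine ⟨t₀, ?_⟩
    rw [← hψ0, map_sub, hom_map, hz₀', hw₀', map_mul, map_pow, ht₀', ← hres]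
    have h4 : hom (g k) z' w' = algebraMap (𝓞 F) O u * s' ^ n := Subtype.ext h2
    rw [h4, map_mul, map_pow]
    exact sub_self _

end Pool.Agent.T9h60.OD
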