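import Mathlib
import Pool.Agent.T9h60.OD.Loc
import Pool.Agent.R925.FD.Cheb2

set_option autoImplicit false

/-! Primes modulo which there is no divisor on the zeros of `h` with given values. -/

namespace Pool.Agent.T9h60.OD
open Finset Polynomial NumberField
open Pool.Agent.R925.FD (hom hom_map hom_mul hom_one hom_div hom_zero_right exL nz lift_root)
open Pool.Agent.W401.Cheb Pool.Agent.W723.SecC

/-- the algebraic numbers -/
abbrev Qb := AlgebraicClosure ℚ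

/-- the zeros of `h` -/
noncomputable def zs (h : ℤ[X]) : Finset Qb := by
  classical exact (h.aroots Qb).toFinset

lemma mem_zs {h : ℤ[X]} (hh : h ≠ 0) {β : Qb} : β ∈ zs h ↔ aeval β h = 0 := by
  classical
  unfold zs
  rw [Multiset.mem_toFinset, mem_aroots]
  exact ⟨fun h1 => h1.2, fun h1 => ⟨hh, h1⟩⟩

/-- the condition at the automorphism `σ` -/
def PersAt {K : Type} (σ : Qb ≃ₐ[ℚ] Qb) (n r : ℕ) (g : K → ℤ[X]) (h : ℤ[X]) (D : K → ℚ) : Prop :=
  ∃ ε : Qb → ℕ, (∀ β, ε (σ β) = ε β) ∧ (∑ β ∈ zs h, ε β) ≡ r [MOD n] ∧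
    ∀ k, ∃ y, σ y = y ∧ ∏ β ∈ zs h, (aeval β (g k)) ^ ε β = (D k : Qb) * y ^ n

/-- the condition modulo `p` -/
def RR (p : ℕ) [Fact p.Prime] {K : Type} (n r : ℕ) (g : K → ℤ[X]) (h : ℤ[X]) (s : K → ℤ) : Prop :=
  ∃ (T : Type) (_ : Fintype T) (z w : T → AlgebraicClosure (ZMod p)) (f e : T → ℕ),
    (∑ i, e i * f i) ≡ r [MOD n] ∧
    (∀ i, z i ^ (p ^ f i) = z i ∧ w i ^ (p ^ f i) = w i ∧ (z i ≠ 0 ∨ w i ≠ 0) ∧ hom h (z i) (w i) = 0) ∧
    ∀ k, ∃ y : AlgebraicClosure (ZMod p), y ^ p = y ∧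
      ∏ i, (∏ j ∈ range (f i), (hom (g k) (z i) (w i)) ^ (p ^ j)) ^ (e i) = (s k : AlgebraicClosure (ZMod p)) * y ^ n

lemma good_frob (L : Type) [Field L] [NumberField L] [IsGalois ℚ L] (τ : Gal(L/ℚ))
    (T : Finset (𝓞 L)) (m0 : ℕ) (hm0 : 0 < m0) :
    ∃ m : ℕ, 0 < m ∧ ∀ p ∈ frobSet L τ m, ∃ _ : Fact p.Prime, ¬ p ∣ m0 ∧
      ∃ φ : 𝓞 L →+* AlgebraicClosure (ZMod p), (∀ x, φ (τ • x) = φ x ^ p) ∧ ∀ x ∈ T, φ x = 0 → x = 0 := by
  classical
  choose mx hmx hmx' using fun x : {x : 𝓞 L // x ≠ 0} => nz L _ x.2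
  let f : 𝓞 L → ℕ := fun x => if h : x ≠ 0 then mx ⟨x, h⟩ else 1
  have hf : ∀ x, 0 < f x := by
    intro x
    simp only [f]
    split_ifs with h
    · exact hmx _
    · exact Nat.one_pos
  refine ⟨m0 * ∏ x ∈ T, f x, Nat.mul_pos hm0 (Finset.prod_pos fun x _ => hf x), ?_⟩
  intro p hp
  obtain ⟨hpp, hpm, hxp⟩ := hp
  have hF : Fact p.Prime := ⟨hpp⟩
  have hex : ∃ φ : 𝓞 L →+* AlgebraicClosure (ZMod p), HasFrob p φ τ := by
    unfold xp at hxp
    rw [dif_pos hpp] at hxp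
    by_contra h
    push Not at h
    apply hxp
    rw [Nat.card_eq_zero]
    left
    exact ⟨fun x => h x.1 x.2⟩
  obtain ⟨φ, hφ⟩ := hex
  refine ⟨hF, fun h => hpm (h.trans (Dvd.intro _ rfl)), φ, hφ, fun x hx hφx => ?_⟩
  by_contra h1
  have h2 : ((f x : ℕ) : AlgebraicClosure (ZMod p)) ≠ 0 := by
    intro h
    rw [CharP.cast_eq_zero_iff (AlgebraicClosure (ZMod p)) p] at h
    exact hpm (h.trans ((Finset.dvd_prod_of_mem f hx).trans (Dvd.intro_left _ rfl)))
  have h3 : f x = mx ⟨x, h1⟩ := dif_pos h1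
  rw [h3] at h2
  exact hmx' ⟨x, h1⟩ _ φ h2 hφx

lemma shift_count {α : Type} [DecidableEq α] {σ : α → α} (hσ : Function.Injective σ) (x β : α) (f : ℕ)
    (hf : σ^[f] x = x) : ((range f).filter (fun j => σ^[j] x = σ β)).card =
      ((range f).filter (fun j => σ^[j] x = β)).card := by
  rw [card_filter, card_filter]
  have h1 : ∀ j, (if σ^[j] x = β then 1 else 0 : ℕ) = if σ^[j + 1] x = σ β then 1 else 0 := by
    intro j
    rw [Function.iterate_succ_apply']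
    by_cases h : σ^[j] x = β
    · rw [if_pos h, if_pos (congrArg σ h)]
    · rw [if_neg h, if_neg (fun h2 => h (hσ h2))]
  rw [sum_congr rfl fun j _ => h1 j]
  have h2 := sum_range_succ (fun j => (if σ^[j] x = σ β then 1 else 0 : ℕ)) f
  rw [sum_range_succ' (fun j => (if σ^[j] x = σ β then 1 else 0 : ℕ)) f, hf] at h2
  exact (Nat.add_right_cancel h2).symm

lemma prod_orbits {α M T : Type} [DecidableEq α] [CommMonoid M] [Fintype T] (σ : α → α) (Z : Finset α)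
    (x : T → α) (f e : T → ℕ) (hZ : ∀ i j, j < f i → σ^[j] (x i) ∈ Z) (G : α → M) :
    ∏ β ∈ Z, G β ^ (∑ i, e i * ((range (f i)).filter (fun j => σ^[j] (x i) = β)).card) =
      ∏ i, (∏ j ∈ range (f i), G (σ^[j] (x i))) ^ (e i) := by
  have h1 : ∀ i, ∏ j ∈ range (f i), G (σ^[j] (x i)) =
      ∏ β ∈ Z, G β ^ ((range (f i)).filter (fun j => σ^[j] (x i) = β)).card := by
    intro i
    rw [← prod_fiberwise_of_maps_to (s := range (f i)) (t := Z) (g := fun j => σ^[j] (x i))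
      (fun j hj => hZ i j (mem_range.1 hj))]
    apply prod_congr rfl
    intro β _
    rw [prod_congr rfl (g := fun _ => G β) (fun j hj => by rw [(mem_filter.1 hj).2]), prod_const]
  simp_rw [h1, ← prod_pow, ← pow_mul, ← prod_pow_eq_pow_sum]
  rw [prod_comm]
  apply prod_congr rfl
  intro i _
  apply prod_congr rfl
  intro β _
  rw [mul_comm]

lemma sum_orbits {α T : Type} [DecidableEq α] [Fintype T] (σ : α → α) (Z : Finset α)
    (x : T → α) (f e : T → ℕ) (hZ : ∀ i j, j < f i → σ^[j] (x i) ∈ Z) :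
    ∑ β ∈ Z, (∑ i, e i * ((range (f i)).filter (fun j => σ^[j] (x i) = β)).card) = ∑ i, e i * f i := by
  rw [sum_comm]
  apply sum_congr rfl
  intro i _
  rw [← mul_sum]
  congr 1
  have h1 := card_eq_sum_card_fiberwise (s := range (f i)) (t := Z) (f := fun j => σ^[j] (x i))
    (fun j hj => hZ i j (mem_range.1 hj))
  rw [card_range] at h1
  exact h1.symm

theorem cheb_odd {K : Type} [Fintype K] [DecidableEq K] {n : ℕ} (hn : 0 < n) (r : ℕ) (g : K → ℤ[X]) (h : ℤ[X])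
    (hh : h ≠ 0) (hdeg : ∀ k, n ∣ (g k).natDegree)
    (hgh : ∀ k, IsCoprime (h.map (Int.castRingHom ℚ)) ((g k).map (Int.castRingHom ℚ)))
    (s : K → ℤ) (hs : ∀ k, s k ≠ 0) (σ : Qb ≃ₐ[ℚ] Qb) (hσ : ¬ PersAt σ n r g h (fun k => (s k : ℚ))) :
    ∃ (L : Type) (_ : Field L) (_ : NumberField L) (_ : IsGalois ℚ L) (τ : Gal(L/ℚ)) (m : ℕ),
      0 < m ∧ ∀ p ∈ frobSet L τ m, ∀ _ : Fact p.Prime, ¬ RR p n r g h s := by
  classical
  have hZ : algebraMap ℤ Qb = Int.castRingHom Qb := RingHom.ext_int _ _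
  have hc0 : h.leadingCoeff ≠ 0 := leadingCoeff_ne_zero.2 hh
  set c : ℤ := h.leadingCoeff with hc
  have hcQb : (c : Qb) ≠ 0 := Int.cast_ne_zero.2 hc0
  have hsQb : ∀ k, (s k : Qb) ≠ 0 := fun k => Int.cast_ne_zero.2 (hs k)
  choose N0 hN0 hN0' using fun k => coprime_any h (g k) hh (hgh k)
  -- the finite set
  have hYf : ∀ A : Qb, {y : Qb | y ^ n = A}.Finite := by
    intro A
    have h1 : (X ^ n - C A : Qb[X]) ≠ 0 := X_pow_sub_C_ne_zero hn A
    refine (Polynomial.finite_setOfPred_isRoot h1).subset ?_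
    intro y hy
    have h2 : y ^ n = A := hy
    change (X ^ n - C A : Qb[X]).IsRoot y
    rw [IsRoot.def, eval_sub, eval_pow, eval_X, eval_C, h2, sub_self]
  let PP : K → (zs h → Fin n) → Qb := fun k η => ∏ β : zs h, (aeval (β : Qb) (g k)) ^ (η β : ℕ)
  set s1 : Set Qb := ⋃ k : K, ⋃ η : zs h → Fin n, {y : Qb | y ^ n = (s k : Qb)⁻¹ * PP k η} with hs1
  have hs1f : s1.Finite := Set.finite_iUnion fun k => Set.finite_iUnion fun η => hYf _
  obtain ⟨L, iF, iN, iG, j, τ, hj, hjτ⟩ := exL σ ((zs h : Set Qb) ∪ s1) ((Finset.finite_toSet _).union hs1f)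
  have hjinj : Function.Injective j := j.injective
  -- algebraic integers
  let jO : 𝓞 L →+* Qb := j.comp (algebraMap (𝓞 L) L)
  have hjOinj : Function.Injective jO :=
    hjinj.comp (FaithfulSMul.algebraMap_injective (𝓞 L) L)
  have hjOτ : ∀ x : 𝓞 L, jO (τ • x) = σ (jO x) := fun x => hjτ _
  -- the polynomial with the zeros `c β`
  set Fh : (𝓞 L)[X] := (integralNormalization h).map (Int.castRingHom (𝓞 L)) with hFh
  have hFm : Fh.Monic := (monic_integralNormalization hh).map _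
  -- the integers `c β`
  have hξex : ∀ β ∈ zs h, ∃ x : 𝓞 L, jO x = c * β := by
    intro β hβ
    obtain ⟨y, hy⟩ := hj β (Or.inl hβ)
    rw [mem_zs hh] at hβ
    have h1 : IsIntegral ℤ ((c : L) * y) := by
      have h2 : IsIntegral ℤ ((c : Qb) * β) := by
        have h3 := isIntegral_leadingCoeff_smul h β hβ
        rwa [zsmul_eq_mul] at h3
      have h4 : IsIntegral ℤ (j ((c : L) * y)) := by
        rw [map_mul, hy, map_intCast]
        exact h2
      exact (isIntegral_algHom_iff (j.toIntAlgHom) hjinj).1 h4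
    refine ⟨⟨(c : L) * y, h1⟩, ?_⟩
    show j ((c : L) * y) = _
    rw [map_mul, hy, map_intCast]
  choose! ξ hξ using hξex
  let A : 𝓞 L → K → 𝓞 L := fun x k => hom (g k) x (c : 𝓞 L)
  let BB : K → (zs h → Fin n) → 𝓞 L := fun k η => (s k : 𝓞 L) ^ (n - 1) * ∏ β : zs h, (A (ξ β) k) ^ (η β : ℕ)
  let TY : Finset (𝓞 L) := univ.biUnion fun k : K => univ.biUnion fun η : zs h → Fin n =>
    (X ^ n - C (BB k η) : (𝓞 L)[X]).roots.toFinset
  let T : Finset (𝓞 L) := ((zs h ×ˢ zs h).image fun b => ξ b.1 - ξ b.2) ∪ TY.image fun Y => τ • Y - Y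
  have hm0 : 0 < c.natAbs * (∏ k, (s k).natAbs) * ∏ k, (N0 k).natAbs :=
    Nat.mul_pos (Nat.mul_pos (Int.natAbs_pos.2 hc0) (Finset.prod_pos fun k _ => Int.natAbs_pos.2 (hs k)))
      (Finset.prod_pos fun k _ => Int.natAbs_pos.2 (hN0 k))
  obtain ⟨m, hm, hfix⟩ := good_frob L τ T _ hm0
  refine ⟨L, iF, iN, iG, τ, m, hm, fun p hp hpF hR => hσ ?_⟩
  obtain ⟨_, hpm, φ, hφτ, hφ⟩ := hfix p hp
  let k' := AlgebraicClosure (ZMod p)
  have hcast : ∀ a : ℤ, a.natAbs ∣ c.natAbs * (∏ k, (s k).natAbs) * ∏ k, (N0 k).natAbs → (a : k') ≠ 0 := by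
    intro a ha h1
    rw [CharP.intCast_eq_zero_iff k' p] at h1
    exact hpm ((Int.natCast_dvd.1 h1).trans ha)
  have hcp : (c : k') ≠ 0 := hcast c ((Dvd.intro _ rfl).trans (Dvd.intro _ rfl))
  have hsp : ∀ k, (s k : k') ≠ 0 := fun k => hcast (s k)
    (((Finset.dvd_prod_of_mem (fun k => (s k).natAbs) (mem_univ k)).trans (Dvd.intro_left _ rfl)).trans
      (Dvd.intro _ rfl))
  have hNp : ∀ k, (N0 k : k') ≠ 0 := fun k => hcast (N0 k)
    ((Finset.dvd_prod_of_mem (fun k => (N0 k).natAbs) (mem_univ k)).trans (Dvd.intro_left _ rfl))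
  obtain ⟨T', iT, z, w, f, e, hdegr, hzw, hg⟩ := hR
  have hintp : ∀ a : ℤ, (a : k') ^ p = a := by
    intro a
    have h1 : (a : k') = algebraMap (ZMod p) k' (a : ZMod p) := (map_intCast _ _).symm
    rw [h1, ← map_pow, ZMod.pow_card]
  have hw0 : ∀ i, w i ≠ 0 := by
    intro i hw
    obtain ⟨-, -, h1, h2⟩ := hzw i
    rw [hw, hom_zero_right] at h2
    rcases mul_eq_zero.1 h2 with h3 | h3
    · exact hcp h3
    · exact pow_ne_zero _ (h1.resolve_right (fun h => h hw)) h3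
  have hht : ∀ i, eval₂ (Int.castRingHom k') (z i / w i) h = 0 := by
    intro i
    obtain ⟨-, -, -, h2⟩ := hzw i
    rw [hom_div _ _ (hw0 i)] at h2
    exact (mul_eq_zero.1 h2).resolve_left (pow_ne_zero _ (hw0 i))
  have hsplit : ∀ F : (𝓞 L)[X], F.Monic → (∀ θ : Qb, eval₂ jO θ F = 0 → ∃ y, j y = θ) →
      (F.map (algebraMap (𝓞 L) L)).Splits := by
    intro F hFmon hF
    have h6 : ((F.map (algebraMap (𝓞 L) L)).map j).Splits := IsAlgClosed.splits _
    refine Splits.of_splits_map j h6 ?_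
    intro θ hθ
    have h7 : ((F.map (algebraMap (𝓞 L) L)).map j).IsRoot θ := Polynomial.isRoot_of_mem_roots hθ
    rw [IsRoot.def, Polynomial.map_map, eval_map] at h7
    exact hF θ h7
  -- the zeros modulo `p`
  have hlift : ∀ i, ∃ β ∈ zs h, φ (ξ β) = (c : k') * (z i / w i) := by
    intro i
    have hd1 : 1 ≤ h.natDegree := by
      by_contra hd
      have hd0 : h.natDegree = 0 := by omega
      have h1 := hht i
      rw [eq_C_of_natDegree_eq_zero hd0, eval₂_C, eq_intCast] at h1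
      apply hcp
      rw [hc, leadingCoeff, hd0]
      exact h1
    have hr0 : eval₂ φ ((c : k') * (z i / w i)) Fh = 0 := by
      rw [hFh, eval₂_map]
      have e1 : φ.comp (Int.castRingHom (𝓞 L)) = Int.castRingHom k' := RingHom.ext_int _ _
      rw [e1]
      have e2 := integralNormalization_eval₂_leadingCoeff_mul hd1 (Int.castRingHom k') (z i / w i)
      rw [eq_intCast, hht i, mul_zero] at e2
      exact e2
    have hFhroot : ∀ θ : Qb, eval₂ jO θ Fh = 0 → aeval (θ / c) h = 0 := by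
      intro θ hθ
      rw [hFh, eval₂_map] at hθ
      have e1 : jO.comp (Int.castRingHom (𝓞 L)) = Int.castRingHom Qb := RingHom.ext_int _ _
      rw [e1] at hθ
      have e2 := integralNormalization_eval₂_leadingCoeff_mul hd1 (Int.castRingHom Qb) (θ / c)
      rw [eq_intCast, ← hc, mul_div_cancel₀ _ hcQb, hθ] at e2
      rw [aeval_def, hZ]
      exact (mul_eq_zero.1 e2.symm).resolve_left (pow_ne_zero _ hcQb)
    have hFhs := hsplit Fh hFm (by
      intro θ hθ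
      obtain ⟨y, hy⟩ := hj (θ / c) (Or.inl ((mem_zs hh).2 (hFhroot θ hθ)))
      refine ⟨c * y, ?_⟩
      rw [map_mul, hy, map_intCast, mul_div_cancel₀ _ hcQb])
    obtain ⟨x0, hx0, hφx0⟩ := lift_root L Fh hFm hFhs φ _ hr0
    have hβh : aeval (jO x0 / c) h = 0 := by
      apply hFhroot
      have h1 := congrArg jO hx0
      rw [map_zero, ← eval₂_at_apply] at h1
      exact h1
    have hβz : jO x0 / c ∈ zs h := (mem_zs hh).2 hβh
    refine ⟨jO x0 / c, hβz, ?_⟩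
    have h1 : ξ (jO x0 / c) = x0 := by
      apply hjOinj
      rw [hξ _ hβz, mul_div_cancel₀ _ hcQb]
    rw [h1, hφx0]
  choose B hBz hBφ using hlift
  have hσz : ∀ β ∈ zs h, σ β ∈ zs h := by
    intro β hβ
    rw [mem_zs hh] at hβ ⊢
    have h1 := aeval_algHom_apply ((σ : Qb →ₐ[ℚ] Qb).restrictScalars ℤ) β h
    rw [hβ, map_zero] at h1
    exact h1
  have hσzj : ∀ (q : ℕ), ∀ β ∈ zs h, σ^[q] β ∈ zs h := by
    intro q
    induction q with
    | zero => exact fun β hβ => hβ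
    | succ q ih =>
      intro β hβ
      rw [Function.iterate_succ_apply]
      exact ih _ (hσz β hβ)
  have hξσ : ∀ β ∈ zs h, ξ (σ β) = τ • ξ β := by
    intro β hβ
    apply hjOinj
    rw [hjOτ, hξ β hβ, hξ _ (hσz β hβ), map_mul, map_intCast]
  have hφξ : ∀ (q : ℕ), ∀ β ∈ zs h, φ (ξ (σ^[q] β)) = φ (ξ β) ^ (p ^ q) := by
    intro q
    induction q with
    | zero =>
      intro β _
      rw [pow_zero, pow_one]
      rfl
    | succ q ih =>
      intro β hβ
      rw [Function.iterate_succ_apply', hξσ _ (hσzj q β hβ), hφτ, ih β hβ, ← pow_mul, ← pow_succ]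
  have hξinj : ∀ β ∈ zs h, ∀ β' ∈ zs h, φ (ξ β) = φ (ξ β') → β = β' := by
    intro β hβ β' hβ' h1
    have h2 : ξ β - ξ β' = 0 := by
      apply hφ
      · exact mem_union_left _ (mem_image.2 ⟨(β, β'), mem_product.2 ⟨hβ, hβ'⟩, rfl⟩)
      · rw [map_sub, h1, sub_self]
    have h3 := congrArg jO (sub_eq_zero.1 h2)
    rw [hξ β hβ, hξ β' hβ'] at h3
    exact mul_left_cancel₀ hcQb h3
  have hBf : ∀ i, σ^[f i] (B i) = B i := by
    intro i
    obtain ⟨h1, h2, -, -⟩ := hzw i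
    apply hξinj _ (hσzj _ _ (hBz i)) _ (hBz i)
    rw [hφξ _ _ (hBz i), hBφ i, mul_pow, div_pow, h1, h2]
    congr 1
    have h3 : ∀ q : ℕ, (c : k') ^ (p ^ q) = c := by
      intro q
      induction q with
      | zero => rw [pow_zero, pow_one]
      | succ q ih => rw [pow_succ, pow_mul, ih, hintp]
    exact h3 _
  -- the divisor
  let ε : Qb → ℕ := fun β => ∑ i, e i * ((range (f i)).filter (fun q => σ^[q] (B i) = β)).card
  have hεσ : ∀ β, ε (σ β) = ε β := by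
    intro β
    apply sum_congr rfl
    intro i _
    rw [shift_count σ.injective (B i) β (f i) (hBf i)]
  have hmaps : ∀ i q, q < f i → σ^[q] (B i) ∈ zs h := fun i q _ => hσzj q _ (hBz i)
  refine ⟨ε, hεσ, ?_, fun k => ?_⟩
  · rw [sum_orbits (⇑σ) (zs h) B f e hmaps]
    exact hdegr
  obtain ⟨qk, hqk⟩ := hdeg k
  obtain ⟨y, hyp, hy⟩ := hg k
  let G : Qb → k' := fun β => φ (A (ξ β) k)
  have hGdef : ∀ β, G β = hom (g k) (φ (ξ β)) (c : k') := by
    intro β
    show φ (hom (g k) (ξ β) (c : 𝓞 L)) = _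
    rw [hom_map, map_intCast]
  have hpow : ∀ (q : ℕ) (u v : k'), (hom (g k) u v) ^ (p ^ q) = hom (g k) (u ^ (p ^ q)) (v ^ (p ^ q)) := by
    intro q u v
    have h1 := hom_map (g k) (iterateFrobenius k' p q) u v
    rw [iterateFrobenius_def, iterateFrobenius_def, iterateFrobenius_def] at h1
    exact h1
  have hcq : ∀ q : ℕ, (c : k') ^ (p ^ q) = c := by
    intro q
    induction q with
    | zero => rw [pow_zero, pow_one]
    | succ q ih => rw [pow_succ, pow_mul, ih, hintp]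
  have hGσ : ∀ (q : ℕ), ∀ β ∈ zs h, G (σ^[q] β) = G β ^ (p ^ q) := by
    intro q β hβ
    rw [hGdef, hGdef, hpow, hφξ q β hβ, hcq]
  have hG0 : ∀ β ∈ zs h, G β ≠ 0 := by
    intro β hβ
    rw [hGdef]
    refine hN0' k k' (hNp k) _ _ (Or.inr hcp) ?_
    have h1 : φ (hom h (ξ β) (c : 𝓞 L)) = hom h (φ (ξ β)) (c : k') := by rw [hom_map, map_intCast]
    rw [← h1]
    have h2 : hom h (ξ β) (c : 𝓞 L) = 0 := by
      apply hjOinj
      rw [hom_map, map_intCast, map_zero, hξ β hβ]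
      have e1 : hom h ((c : Qb) * β) (c : Qb) = hom h ((c : Qb) * β) ((c : Qb) * 1) := by rw [mul_one]
      rw [e1, hom_mul, hom_one, ← hZ, ← aeval_def, (mem_zs hh).1 hβ, mul_zero]
    rw [h2, map_zero]
  -- the value of the divisor modulo `p`
  let W : k' := ∏ i, (∏ q ∈ range (f i), (w i / c) ^ (p ^ q)) ^ (e i)
  have hcw : ∀ i, (w i / c) ^ (p ^ f i) = w i / c := by
    intro i
    rw [div_pow, (hzw i).2.1, hcq]
  have hW0 : W ≠ 0 := by
    refine prod_ne_zero_iff.2 fun i _ => pow_ne_zero _ (prod_ne_zero_iff.2 fun q _ => pow_ne_zero _ ?_)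
    exact div_ne_zero (hw0 i) hcp
  have hWp : W ^ p = W := by
    show (∏ i, (∏ q ∈ range (f i), (w i / c) ^ (p ^ q)) ^ (e i)) ^ p = _
    rw [← prod_pow]
    apply prod_congr rfl
    intro i _
    rw [← pow_mul, mul_comm, pow_mul]
    congr 1
    rw [← prod_pow]
    have h1 : ∀ q, ((w i / (c : k')) ^ (p ^ q)) ^ p = (w i / c) ^ (p ^ (q + 1)) := fun q => by
      rw [← pow_mul, ← pow_succ]
    rw [prod_congr rfl fun q _ => h1 q]
    have h2 := prod_range_succ (fun q => (w i / (c : k')) ^ (p ^ q)) (f i)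
    rw [prod_range_succ', hcw, pow_zero, pow_one] at h2
    exact mul_right_cancel₀ (div_ne_zero (hw0 i) hcp) h2
  have hval : (s k : k') * y ^ n = W ^ (g k).natDegree * ∏ β ∈ zs h, G β ^ ε β := by
    rw [← hy]
    have h1 := prod_orbits (⇑σ) (zs h) B f e hmaps G
    show _ = _ * ∏ β ∈ zs h, G β ^ (∑ i, e i * ((range (f i)).filter (fun q => σ^[q] (B i) = β)).card)
    rw [h1]
    show _ = (∏ i, (∏ q ∈ range (f i), (w i / c) ^ (p ^ q)) ^ (e i)) ^ (g k).natDegree * _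
    rw [← prod_pow, ← prod_mul_distrib]
    apply prod_congr rfl
    intro i _
    rw [← pow_mul, mul_comm (e i), pow_mul, ← mul_pow]
    congr 1
    rw [← prod_pow, ← prod_mul_distrib]
    apply prod_congr rfl
    intro q _
    rw [hGσ q _ (hBz i), ← pow_mul, mul_comm (p ^ q), pow_mul, ← mul_pow]
    congr 1
    rw [hGdef, hBφ i, ← hom_mul]
    have hw := hw0 i
    congr 1
    · field_simp
    · field_simp
  -- reduction modulo `n`
  let U : k' := ∏ β ∈ zs h, G β ^ (ε β / n)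
  have hU0 : U ≠ 0 := prod_ne_zero_iff.2 fun β hβ => pow_ne_zero _ (hG0 β hβ)
  have hσbij : ∀ {M : Type} [CommMonoid M] (F : Qb → M), ∏ β ∈ zs h, F (σ β) = ∏ β ∈ zs h, F β := by
    intro M _ F
    have himg : (zs h).image σ = zs h := by
      apply eq_of_subset_of_card_le
      · intro x hx
        obtain ⟨β, hβ, rfl⟩ := mem_image.1 hx
        exact hσz β hβ
      · rw [card_image_of_injective _ σ.injective]
    conv_rhs => rw [← himg]
    rw [prod_image (fun a _ b _ hab => σ.injective hab)]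
  have hUp : U ^ p = U := by
    show (∏ β ∈ zs h, G β ^ (ε β / n)) ^ p = ∏ β ∈ zs h, G β ^ (ε β / n)
    have h0 := hσbij (fun β => G β ^ (ε β / n))
    refine Eq.trans ?_ h0
    rw [← prod_pow]
    apply prod_congr rfl
    intro β hβ
    have h1 := hGσ 1 β hβ
    rw [pow_one] at h1
    have h2 : G (σ β) = G β ^ p := h1
    show (G β ^ (ε β / n)) ^ p = G (σ β) ^ (ε (σ β) / n)
    rw [h2, hεσ, ← pow_mul, ← pow_mul, mul_comm]
  let η : zs h → Fin n := fun β => ⟨ε β % n, Nat.mod_lt _ hn⟩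
  have hsum : ∏ β ∈ zs h, G β ^ ε β = (∏ β : zs h, G β ^ (η β : ℕ)) * U ^ n := by
    show _ = (∏ β : zs h, G β ^ (ε β % n)) * (∏ β ∈ zs h, G β ^ (ε β / n)) ^ n
    rw [prod_coe_sort (zs h) (fun β => G β ^ (ε β % n)), ← prod_pow, ← prod_mul_distrib]
    apply prod_congr rfl
    intro β _
    rw [← pow_mul, ← pow_add, Nat.mul_comm (ε β / n) n, Nat.mod_add_div]
  have hn1 : n - 1 + 1 = n := by omega
  obtain ⟨r', hr'⟩ : ∃ r' : k', r' = (s k : k') * (y / (W ^ qk * U)) := ⟨_, rfl⟩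
  have hr'p : r' ^ p = r' := by
    rw [hr', mul_pow, div_pow, mul_pow, hintp, hyp, hUp, ← pow_mul, mul_comm qk p, pow_mul, hWp]
  have hφB : φ (BB k η) = r' ^ n := by
    have h1 : φ (BB k η) = (s k : k') ^ (n - 1) * ∏ β : zs h, G β ^ (η β : ℕ) := by
      show φ ((s k : 𝓞 L) ^ (n - 1) * ∏ β : zs h, (A (ξ β) k) ^ (η β : ℕ)) = _
      rw [map_mul, map_pow, map_intCast, map_prod]
      congr 1
      apply prod_congr rfl
      intro β _
      rw [map_pow]
    rw [h1, hr']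
    have h2 : (s k : k') * y ^ n = (W ^ qk * U) ^ n * ∏ β : zs h, G β ^ (η β : ℕ) := by
      rw [hval, hsum, hqk, mul_comm n qk, pow_mul, mul_pow]
      ring
    have h3 : (W ^ qk * U) ^ n ≠ 0 := pow_ne_zero _ (mul_ne_zero (pow_ne_zero _ hW0) hU0)
    rw [mul_pow, div_pow]
    have h4 : y ^ n = (W ^ qk * U) ^ n * (∏ β : zs h, G β ^ (η β : ℕ)) / s k := by
      rw [← h2, mul_div_cancel_left₀ _ (hsp k)]
    rw [h4]
    have h5 : (s k : k') ^ n = (s k : k') ^ (n - 1) * s k := by rw [← pow_succ, hn1]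
    rw [h5]
    have h6 := hsp k
    have h7 : ∀ (κ : Type) [Field κ] (a b c d : κ), b ≠ 0 → c ≠ 0 → (a * b) * ((c * d) / b / c) = a * d := by
      intro κ _ a b c d hb hc
      field_simp
    exact (h7 _ _ _ _ _ h6 h3).symm
  -- the root
  have hjB : jO (BB k η) = (s k : Qb) ^ (n - 1) * ((c : Qb) ^ (qk * ∑ β : zs h, (η β : ℕ))) ^ n * PP k η := by
    show jO ((s k : 𝓞 L) ^ (n - 1) * ∏ β : zs h, (A (ξ β) k) ^ (η β : ℕ)) = _
    rw [map_mul, map_pow, map_intCast, map_prod, mul_assoc]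
    congr 1
    have h1 : ∀ β : zs h, jO ((A (ξ β) k) ^ (η β : ℕ)) =
        (c : Qb) ^ (n * qk * (η β : ℕ)) * (aeval (β : Qb) (g k)) ^ (η β : ℕ) := by
      intro β
      show jO ((hom (g k) (ξ β) (c : 𝓞 L)) ^ (η β : ℕ)) = _
      rw [map_pow, hom_map, map_intCast, hξ β β.2]
      have e1 : hom (g k) ((c : Qb) * β) (c : Qb) = hom (g k) ((c : Qb) * β) ((c : Qb) * 1) := by rw [mul_one]
      rw [e1, hom_mul, hom_one, ← hZ, ← aeval_def, mul_pow, ← pow_mul, ← hqk]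
    rw [prod_congr rfl fun β _ => h1 β, prod_mul_distrib, prod_pow_eq_pow_sum]
    congr 1
    rw [← mul_sum, ← pow_mul]
    congr 1
    ring
  have hFAm : (X ^ n - C (BB k η) : (𝓞 L)[X]).Monic := monic_X_pow_sub_C _ hn.ne'
  obtain ⟨cc, hcc⟩ : ∃ cc : Qb, cc = (c : Qb) ^ (qk * ∑ β : zs h, (η β : ℕ)) := ⟨_, rfl⟩
  rw [← hcc] at hjB
  have hcc0 : cc ≠ 0 := by rw [hcc]; exact pow_ne_zero _ hcQb
  have hYroot : ∀ Y : Qb, Y ^ n = jO (BB k η) → (Y / ((s k : Qb) * cc)) ^ n = (s k : Qb)⁻¹ * PP k η := by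
    intro Y hY
    rw [div_pow, hY, hjB, mul_pow]
    have e3 : (s k : Qb) ^ n = (s k : Qb) ^ (n - 1) * s k := by rw [← pow_succ, hn1]
    rw [e3]
    have e4 : (s k : Qb) ^ (n - 1) ≠ 0 := pow_ne_zero _ (hsQb k)
    have e5 : cc ^ n ≠ 0 := pow_ne_zero _ hcc0
    have e6 : (s k : Qb) ≠ 0 := hsQb k
    generalize (s k : Qb) ^ (n - 1) = D1 at e4 ⊢
    generalize cc ^ n = C1 at e5 ⊢
    generalize (s k : Qb) = D2 at e6 ⊢
    field_simp
  have hFAs := hsplit (X ^ n - C (BB k η)) hFAm (by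
    intro θ hθ
    rw [eval₂_sub, eval₂_pow, eval₂_X, eval₂_C, sub_eq_zero] at hθ
    have h1 := hYroot θ hθ
    obtain ⟨y', hy'⟩ := hj _ (Or.inr (by
      rw [hs1]
      simp only [Set.mem_iUnion]
      exact ⟨k, η, h1⟩))
    obtain ⟨y'', hy''⟩ : ∃ y'' : L, j y'' = cc := by
      refine ⟨(c : L) ^ (qk * ∑ β : zs h, (η β : ℕ)), ?_⟩
      rw [map_pow, map_intCast, hcc]
    refine ⟨((s k : L) * y'') * y', ?_⟩
    rw [map_mul, map_mul, map_intCast, hy', hy'', mul_div_cancel₀]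
    exact mul_ne_zero (hsQb k) hcc0)
  obtain ⟨Y, hY, hφY⟩ := lift_root L _ hFAm hFAs φ r' (by
    rw [eval₂_sub, eval₂_pow, eval₂_X, eval₂_C, hφB, sub_self])
  have hYT : Y ∈ TY := by
    refine mem_biUnion.2 ⟨k, mem_univ k, mem_biUnion.2 ⟨η, mem_univ η, ?_⟩⟩
    rw [Multiset.mem_toFinset, mem_roots hFAm.ne_zero]
    exact hY
  have hYτ : τ • Y = Y := by
    apply sub_eq_zero.1
    apply hφ _ (mem_union_right _ (mem_image.2 ⟨Y, hYT, rfl⟩))
    rw [map_sub, hφτ, hφY, hr'p, sub_self]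
  have hYn : Y ^ n = BB k η := by
    rw [eval_sub, eval_pow, eval_X, eval_C, sub_eq_zero] at hY
    exact hY
  let Q : Qb := ∏ β ∈ zs h, (aeval β (g k)) ^ (ε β / n)
  have hσg : ∀ β, σ (aeval β (g k)) = aeval (σ β) (g k) := by
    intro β
    exact (aeval_algHom_apply ((σ : Qb →ₐ[ℚ] Qb).restrictScalars ℤ) β (g k)).symm
  have hQσ : σ Q = Q := by
    show σ (∏ β ∈ zs h, (aeval β (g k)) ^ (ε β / n)) = ∏ β ∈ zs h, (aeval β (g k)) ^ (ε β / n)
    rw [map_prod, ← hσbij (fun β => (aeval β (g k)) ^ (ε β / n))]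
    apply prod_congr rfl
    intro β _
    rw [map_pow, hσg, hεσ]
  refine ⟨jO Y / ((s k : Qb) * cc) * Q, ?_, ?_⟩
  · rw [map_mul, hQσ, map_div₀, map_mul, map_intCast, ← hjOτ, hYτ, hcc, map_pow, map_intCast]
  · rw [mul_pow, hYroot (jO Y) (by rw [← map_pow, hYn])]
    have h1 : ∏ β ∈ zs h, (aeval β (g k)) ^ ε β = PP k η * Q ^ n := by
      show _ = (∏ β : zs h, (aeval (β : Qb) (g k)) ^ (ε β % n)) * (∏ β ∈ zs h, (aeval β (g k)) ^ (ε β / n)) ^ n
      rw [prod_coe_sort (zs h) (fun β => (aeval β (g k)) ^ (ε β % n)), ← prod_pow, ← prod_mul_distrib]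
      apply prod_congr rfl
      intro β _
      rw [← pow_mul, ← pow_add, Nat.mul_comm (ε β / n) n, Nat.mod_add_div]
    rw [h1, Rat.cast_intCast]
    have h2 := hsQb k
    field_simp

end Pool.Agent.T9h60.OD
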