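import Mathlib

set_option autoImplicit false

/-! The norm of an algebraic integer modulo a prime number. -/

namespace Pool.Agent.T9h60.OD
open Finset Module

/-- the norm of an element of a product with one component -/
lemma norm_single {k : Type} [Field k] {ι : Type} [Fintype ι] [DecidableEq ι] (B : ι → Type)
    [∀ i, CommRing (B i)] [∀ i, Algebra k (B i)] [∀ i, FiniteDimensional k (B i)] (i : ι) (b : B i) :
    Algebra.norm k (Pi.mulSingle i b : ∀ j, B j) = Algebra.norm k b := by
  let W : Submodule k (∀ j, B j) := LinearMap.ker (LinearMap.proj i)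
  let e : (∀ j, B j) →ₗ[k] (∀ j, B j) := LinearMap.mul k (∀ j, B j) (Pi.mulSingle i b)
  have hW : ∀ f : (∀ j, B j), f ∈ W ↔ f i = 0 := fun f => LinearMap.mem_ker
  have hee : ∀ (f : ∀ j, B j) (j : ι), e f j = (Pi.mulSingle i b : ∀ j, B j) j * f j := fun f j => rfl
  have he : W ≤ W.comap e := by
    intro f hf
    rw [hW] at hf
    rw [Submodule.mem_comap, hW, hee, hf, mul_zero]
  have h1 := LinearMap.det_eq_det_mul_det W e he
  have h2 : e.restrict he = LinearMap.id := by
    refine LinearMap.ext fun f => Subtype.ext (funext fun j => ?_)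
    show e f.1 j = f.1 j
    rw [hee]
    by_cases hj : j = i
    · subst hj
      rw [(hW f.1).1 f.2, mul_zero]
    · rw [Pi.mulSingle_eq_of_ne hj, one_mul]
  have h3 : (W.mapQ W e he).det = Algebra.norm k b := by
    let pr : (∀ j, B j) →ₗ[k] B i := LinearMap.proj i
    have hpr : Function.Surjective pr := LinearMap.proj_surjective i
    let E : ((∀ j, B j) ⧸ W) ≃ₗ[k] B i := pr.quotKerEquivOfSurjective hpr
    rw [← LinearMap.det_conj (W.mapQ W e he) E, Algebra.norm_apply]
    congr 1
    refine LinearMap.ext fun x => ?_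
    obtain ⟨f, rfl⟩ := hpr x
    have h5 : ∀ f : (∀ j, B j), E (Submodule.Quotient.mk f) = pr f := fun f =>
      LinearMap.quotKerEquivOfSurjective_apply_mk pr hpr f
    have h4 : E.symm (pr f) = Submodule.Quotient.mk f := by
      rw [LinearEquiv.symm_apply_eq, h5]
    show E (W.mapQ W e he (E.symm (pr f))) = b * (pr f)
    rw [h4, Submodule.mapQ_apply, h5]
    show e f i = b * f i
    rw [hee, Pi.mulSingle_eq_same]
  have h4 : Algebra.norm k (Pi.mulSingle i b : ∀ j, B j) = e.det := Algebra.norm_apply k _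
  rw [h4, h1, h2, h3, LinearMap.det_id, one_mul]

/-- the norm on a product -/
lemma norm_pi {k : Type} [Field k] {ι : Type} [Fintype ι] [DecidableEq ι] (B : ι → Type)
    [∀ i, CommRing (B i)] [∀ i, Algebra k (B i)] [∀ i, FiniteDimensional k (B i)] (x : ∀ i, B i) :
    Algebra.norm k x = ∏ i, Algebra.norm k (x i) := by
  conv_lhs => rw [← Finset.univ_prod_mulSingle x]
  rw [map_prod]
  exact prod_congr rfl fun i _ => norm_single B i (x i)

/-- the norm for an algebra with nilpotent radical -/
lemma norm_local {p : ℕ} [hp : Fact p.Prime] {B K : Type} [CommRing B] [Field K] [Algebra (ZMod p) B]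
    [Algebra (ZMod p) K] [Finite B] (π : B →+* K) (hπ : Function.Surjective π) {N : ℕ}
    (hN : ∀ b, π b = 0 → b ^ N = 0) :
    ∃ e, finrank (ZMod p) B = finrank (ZMod p) K * e ∧
      ∀ b, Algebra.norm (ZMod p) b = (Algebra.norm (ZMod p) (π b)) ^ e := by
  have hKfin : Finite K := Finite.of_surjective π hπ
  have hBn : Nontrivial B := π.domain_nontrivial
  have hchar : CharP B p := charP_of_injective_algebraMap (algebraMap (ZMod p) B).injective p
  have hexp : ExpChar B p := ExpChar.prime hp.out
  have hfd : FiniteDimensional (ZMod p) K := Module.Finite.of_finite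
  have hfdB : FiniteDimensional (ZMod p) B := Module.Finite.of_finite
  have hf : 0 < finrank (ZMod p) K := Module.finrank_pos
  obtain ⟨M, hM⟩ : ∃ M, M = finrank (ZMod p) K * N := ⟨_, rfl⟩
  have hNM : N ≤ p ^ M := by
    calc N ≤ 2 ^ N := Nat.lt_two_pow_self.le
      _ ≤ p ^ N := Nat.pow_le_pow_left hp.out.two_le N
      _ ≤ p ^ M := Nat.pow_le_pow_right hp.out.pos (by rw [hM]; exact Nat.le_mul_of_pos_left N hf)
  have hker : RingHom.ker π ≤ RingHom.ker (iterateFrobenius B p M) := by
    intro b hb
    rw [RingHom.mem_ker] at hb ⊢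
    rw [iterateFrobenius_def]
    obtain ⟨r, hr⟩ := Nat.exists_eq_add_of_le hNM
    rw [hr, pow_add, hN b hb, zero_mul]
  let τ : K →+* B := RingHom.liftOfSurjective π hπ ⟨iterateFrobenius B p M, hker⟩
  have hτ : ∀ b, τ (π b) = b ^ (p ^ M) := fun b => by
    have h1 := RingHom.congr_fun (RingHom.liftOfRightInverse_comp π _ (Function.rightInverse_surjInv hπ)
      ⟨iterateFrobenius B p M, hker⟩) b
    rw [RingHom.comp_apply] at h1
    exact h1.trans (iterateFrobenius_def p M b)
  let _ : Algebra K B := τ.toAlgebra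
  have htower : IsScalarTower (ZMod p) K B := IsScalarTower.of_algebraMap_eq' (Subsingleton.elim _ _)
  have hfin : Module.Finite K B := Module.Finite.of_restrictScalars_finite (ZMod p) K B
  refine ⟨finrank K B, (finrank_mul_finrank (ZMod p) K B).symm, fun b => ?_⟩
  have h1 : Algebra.norm (ZMod p) (b ^ (p ^ M)) = (Algebra.norm (ZMod p) (π b)) ^ finrank K B := by
    rw [← hτ b]
    have h2 : τ (π b) = algebraMap K B (π b) := rfl
    rw [h2, ← Algebra.norm_norm (R := ZMod p) (S := K), Algebra.norm_algebraMap, map_pow]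
  rw [← h1, map_pow, ZMod.pow_card_pow]

/-- the homomorphism from `ℤ/p` to a ring with `p = 0` -/
noncomputable def zHom (p : ℕ) (A : Type) [CommRing A] (h : (p : A) = 0) : ZMod p →+* A :=
  (Ideal.Quotient.lift (Ideal.span {(p : ℤ)}) (Int.castRingHom A) (fun a ha => by
    obtain ⟨b, rfl⟩ := Ideal.mem_span_singleton'.1 ha
    rw [map_mul, eq_intCast, eq_intCast, Int.cast_natCast, h, mul_zero])).comp
    (Int.quotientSpanNatEquivZMod p).symm.toRingHom

/-- the norm modulo `p` -/
lemma norm_mod (R : Type) [CommRing R] [Module.Free ℤ R] [Module.Finite ℤ R] {p : ℕ} [hp : Fact p.Prime]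
    [Algebra (ZMod p) (R ⧸ Ideal.span {(p : R)})] (u : R) :
    ((Algebra.norm ℤ u : ℤ) : ZMod p) = Algebra.norm (ZMod p) (Ideal.Quotient.mk (Ideal.span {(p : R)}) u) := by
  classical
  let ι := Module.Free.ChooseBasisIndex ℤ R
  let b : Basis ι ℤ R := Module.Free.chooseBasis ℤ R
  let A := R ⧸ Ideal.span {(p : R)}
  let q : R →+* A := Ideal.Quotient.mk (Ideal.span {(p : R)})
  have hsm : ∀ (n : ℤ) (x : A), ((n : ℤ) : ZMod p) • x = q (n : R) * x := by
    intro n x
    rw [Algebra.smul_def, map_intCast, map_intCast]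
  have hli : LinearIndependent (ZMod p) (fun i => q (b i)) := by
    rw [Fintype.linearIndependent_iff]
    intro a ha i
    choose n hn using fun i => ZMod.intCast_surjective (a i)
    have h1 : q (∑ i, n i • b i) = 0 := by
      rw [← ha, map_sum]
      apply sum_congr rfl
      intro j _
      rw [← hn j, hsm, zsmul_eq_mul, map_mul]
    rw [Ideal.Quotient.eq_zero_iff_mem, Ideal.mem_span_singleton'] at h1
    obtain ⟨r, hr⟩ := h1
    have h2 : b.repr (r * (p : R)) i = b.repr (∑ i, n i • b i) i := by rw [hr]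
    rw [map_sum, Finsupp.finsetSum_apply, sum_eq_single i] at h2
    · rw [map_smul, Basis.repr_self, Finsupp.smul_single, Finsupp.single_eq_same, smul_eq_mul, mul_one] at h2
      have h3 : r * (p : R) = (p : ℤ) • r := by
        rw [zsmul_eq_mul, Int.cast_natCast, mul_comm]
      rw [h3, map_smul, Finsupp.smul_apply, smul_eq_mul] at h2
      rw [← hn i, ← h2]
      push_cast
      rw [ZMod.natCast_self, zero_mul]
    · intro j _ hj
      rw [map_smul, Basis.repr_self, Finsupp.smul_apply, Finsupp.single_eq_of_ne (by exact fun h => hj h.symm), smul_zero]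
    · intro h
      exact absurd (mem_univ i) h
  have hsp : ⊤ ≤ Submodule.span (ZMod p) (Set.range (fun i => q (b i))) := by
    intro x _
    obtain ⟨y, rfl⟩ := Ideal.Quotient.mk_surjective x
    rw [← b.sum_repr y, map_sum]
    apply Submodule.sum_mem
    intro i _
    have h1 : q (b.repr y i • b i) = ((b.repr y i : ℤ) : ZMod p) • q (b i) := by
      rw [hsm, zsmul_eq_mul, map_mul]
    show q (b.repr y i • b i) ∈ _
    rw [h1]
    exact Submodule.smul_mem _ _ (Submodule.subset_span ⟨i, rfl⟩)
  let b' : Basis ι (ZMod p) A := Basis.mk hli hsp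
  have hb' : ∀ i, b' i = q (b i) := fun i => Basis.mk_apply hli hsp i
  have hmat : Algebra.leftMulMatrix b' (q u) = (Algebra.leftMulMatrix b u).map (Int.castRingHom (ZMod p)) := by
    ext i j
    rw [Algebra.leftMulMatrix_eq_repr_mul, Matrix.map_apply, Algebra.leftMulMatrix_eq_repr_mul]
    have h1 : q u * b' j = ∑ l, ((b.repr (u * b j) l : ℤ) : ZMod p) • b' l := by
      rw [hb', ← map_mul]
      conv_lhs => rw [← b.sum_repr (u * b j)]
      rw [map_sum]
      apply sum_congr rfl
      intro l _
      rw [hsm, hb', zsmul_eq_mul, map_mul]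
    rw [h1, map_sum, Finsupp.finsetSum_apply, sum_eq_single i]
    · rw [map_smul, Basis.repr_self, Finsupp.smul_single, Finsupp.single_eq_same, smul_eq_mul, mul_one]
      rfl
    · intro l _ hl
      rw [map_smul, Basis.repr_self, Finsupp.smul_apply, Finsupp.single_eq_of_ne (by exact fun h => hl h.symm), smul_zero]
    · intro h
      exact absurd (mem_univ i) h
  rw [Algebra.norm_eq_matrix_det b', Algebra.norm_eq_matrix_det b]
  show _ = Matrix.det (Algebra.leftMulMatrix b' (q u))
  rw [hmat, ← RingHom.mapMatrix_apply, ← RingHom.map_det]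
  rfl

end Pool.Agent.T9h60.OD
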