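import Mathlib
import Pool.Agent.T9h60.OD.Norm

set_option autoImplicit false

/-! The norm of an algebraic integer modulo a prime number in terms of the residue fields. -/

namespace Pool.Agent.T9h60.OD
open Finset Module NumberField IsDedekindDomain UniqueFactorizationMonoid

/-- the residue field of a prime ideal over `p` and an embedding -/
lemma residue_emb (F : Type) [Field F] [NumberField F] {p : ℕ} [hp : Fact p.Prime] (P : Ideal (𝓞 F))
    (hP : P.IsPrime) (hP0 : P ≠ ⊥) (hpP : (p : 𝓞 F) ∈ P) (e : ℕ) (he : 0 < e) (hpe : (p : 𝓞 F) ∈ P ^ e)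
    [Algebra (ZMod p) (𝓞 F ⧸ P ^ e)] :
    ∃ (f : ℕ) (φ : 𝓞 F →+* AlgebraicClosure (ZMod p)), RingHom.ker φ = P ∧ (∀ x, φ x ^ (p ^ f) = φ x) ∧
      finrank (ZMod p) (𝓞 F ⧸ P ^ e) = e * f ∧
      ∀ u, algebraMap (ZMod p) (AlgebraicClosure (ZMod p))
        (Algebra.norm (ZMod p) (Ideal.Quotient.mk (P ^ e) u)) = (∏ j ∈ range f, φ u ^ (p ^ j)) ^ e := by
  classical
  have hmax : P.IsMaximal := hP.isMaximal hP0
  let _ : Field (𝓞 F ⧸ P) := Ideal.Quotient.field P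
  have hz : ((p : ℕ) : 𝓞 F ⧸ P) = 0 := by
    rw [← map_natCast (Ideal.Quotient.mk P)]
    exact Ideal.Quotient.eq_zero_iff_mem.2 hpP
  let _ : Algebra (ZMod p) (𝓞 F ⧸ P) := (zHom p (𝓞 F ⧸ P) hz).toAlgebra
  have hfinP : Finite (𝓞 F ⧸ P) := Ideal.finiteQuotientOfFreeOfNeBot P hP0
  have hPe0 : P ^ e ≠ ⊥ := pow_ne_zero e hP0
  have hfinB : Finite (𝓞 F ⧸ P ^ e) := Ideal.finiteQuotientOfFreeOfNeBot _ hPe0
  have hle : P ^ e ≤ P := Ideal.pow_le_self he.ne'
  let π : 𝓞 F ⧸ P ^ e →+* 𝓞 F ⧸ P := Ideal.Quotient.factor hle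
  have hπ : Function.Surjective π := Ideal.Quotient.factor_surjective hle
  obtain ⟨e', he', hnorm⟩ := norm_local (p := p) π hπ (N := e) (fun b hb => by
    obtain ⟨x, rfl⟩ := Ideal.Quotient.mk_surjective b
    have h1 : Ideal.Quotient.mk P x = 0 := hb
    rw [Ideal.Quotient.eq_zero_iff_mem] at h1
    rw [← map_pow, Ideal.Quotient.eq_zero_iff_mem]
    exact Ideal.pow_mem_pow h1 e)
  have hfd : FiniteDimensional (ZMod p) (𝓞 F ⧸ P) := Module.Finite.of_finite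
  have hfdB : FiniteDimensional (ZMod p) (𝓞 F ⧸ P ^ e) := Module.Finite.of_finite
  have hf0 : 0 < finrank (ZMod p) (𝓞 F ⧸ P) := Module.finrank_pos
  have hee : e' = e := by
    have h1 : Nat.card (𝓞 F ⧸ P ^ e) = Nat.card (𝓞 F ⧸ P) ^ e := by
      have h2 : Ideal.absNorm (P ^ e) = Ideal.absNorm P ^ e := map_pow _ _ _
      rwa [Ideal.absNorm_apply, Ideal.absNorm_apply, Submodule.cardQuot_apply, Submodule.cardQuot_apply] at h2
    rw [Module.natCard_eq_pow_finrank (K := ZMod p) (V := 𝓞 F ⧸ P ^ e),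
      Module.natCard_eq_pow_finrank (K := ZMod p) (V := 𝓞 F ⧸ P), Nat.card_zmod, ← pow_mul] at h1
    have h3 := Nat.pow_right_injective hp.out.two_le h1
    rw [he'] at h3
    exact Nat.eq_of_mul_eq_mul_left hf0 h3
  subst hee
  let ι : (𝓞 F ⧸ P) →ₐ[ZMod p] AlgebraicClosure (ZMod p) := IsAlgClosed.lift
  have hι : Function.Injective ι := ι.toRingHom.injective
  refine ⟨finrank (ZMod p) (𝓞 F ⧸ P), (ι : (𝓞 F ⧸ P) →+* AlgebraicClosure (ZMod p)).comp (Ideal.Quotient.mk P),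
    ?_, fun x => ?_, ?_, fun u => ?_⟩
  · ext x
    rw [RingHom.mem_ker, RingHom.comp_apply]
    constructor
    · intro h1
      exact Ideal.Quotient.eq_zero_iff_mem.1 (hι (h1.trans (map_zero ι).symm))
    · intro h1
      rw [Ideal.Quotient.eq_zero_iff_mem.2 h1, map_zero]
  · rw [RingHom.comp_apply, ← map_pow]
    congr 1
    have h1 : Nat.card (𝓞 F ⧸ P) = p ^ finrank (ZMod p) (𝓞 F ⧸ P) := by
      rw [Module.natCard_eq_pow_finrank (K := ZMod p) (V := 𝓞 F ⧸ P), Nat.card_zmod]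
    have _ : Fintype (𝓞 F ⧸ P) := Fintype.ofFinite _
    rw [← h1, Nat.card_eq_fintype_card]
    exact FiniteField.pow_card _
  · rw [he', mul_comm]
  · rw [hnorm, map_pow]
    congr 1
    have h1 := FiniteField.algebraMap_norm_eq_prod_pow (ZMod p) (𝓞 F ⧸ P) (Ideal.Quotient.mk P u)
    have h2 := congrArg ι h1
    rw [AlgHom.commutes, map_prod] at h2
    have h3 : π (Ideal.Quotient.mk (P ^ e') u) = Ideal.Quotient.mk P u := rfl
    rw [h3, h2]
    apply prod_congr rfl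
    intro j _
    rw [map_pow, Nat.card_zmod]
    rfl

/-- **The norm modulo `p`.** -/
theorem norm_formula (F : Type) [Field F] [NumberField F] (p : ℕ) [hp : Fact p.Prime] :
    ∃ (S : Type) (_ : Fintype S) (v : S → HeightOneSpectrum (𝓞 F)) (e f : S → ℕ)
      (φ : S → (𝓞 F →+* AlgebraicClosure (ZMod p))),
      (∀ i, RingHom.ker (φ i) = (v i).asIdeal) ∧ (∀ i x, φ i x ^ (p ^ (f i)) = φ i x) ∧
      Function.Injective v ∧
      (∀ i, (v i).intValuation (p : 𝓞 F) = WithZero.exp (-(e i : ℤ))) ∧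
      (∀ w : HeightOneSpectrum (𝓞 F), (p : 𝓞 F) ∈ w.asIdeal → ∃ i, v i = w) ∧
      ∑ i, e i * f i = finrank ℚ F ∧
      ∀ u : 𝓞 F, ((Algebra.norm ℤ u : ℤ) : AlgebraicClosure (ZMod p)) =
        ∏ i, (∏ j ∈ range (f i), φ i u ^ (p ^ j)) ^ (e i) := by
  classical
  let I : Ideal (𝓞 F) := Ideal.span {(p : 𝓞 F)}
  have hp0 : (p : 𝓞 F) ≠ 0 := by exact_mod_cast hp.out.ne_zero
  have hI : I ≠ ⊥ := by
    rw [Ne, Ideal.span_singleton_eq_bot]
    exact hp0
  let S := {P : Ideal (𝓞 F) // P ∈ (factors I).toFinset}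
  have hprime : ∀ P : S, Prime P.1 := fun P => prime_of_factor _ (Multiset.mem_toFinset.mp P.2)
  have hP0 : ∀ P : S, P.1 ≠ ⊥ := fun P => (hprime P).ne_zero
  have hPp : ∀ P : S, P.1.IsPrime := fun P => Ideal.isPrime_of_prime (hprime P)
  let e : S → ℕ := fun P => (factors I).count P.1
  have he : ∀ P, 0 < e P := fun P => Multiset.count_pos.2 (Multiset.mem_toFinset.mp P.2)
  have hprod : (factors I).prod = I := associated_iff_eq.mp (factors_prod hI)
  have hIe : ∀ P : S, I ≤ P.1 ^ e P := fun P => by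
    rw [← Ideal.dvd_iff_le]
    conv_rhs => rw [← hprod]
    have h1 : Multiset.replicate ((factors I).count P.1) P.1 ≤ factors I :=
      Multiset.le_count_iff_replicate_le.1 le_rfl
    have h2 := Multiset.prod_dvd_prod_of_le h1
    rwa [Multiset.prod_replicate] at h2
  have hpI : (p : 𝓞 F) ∈ I := Ideal.mem_span_singleton_self _
  have hpPe : ∀ P : S, (p : 𝓞 F) ∈ P.1 ^ e P := fun P => hIe P hpI
  have hpP : ∀ P : S, (p : 𝓞 F) ∈ P.1 := fun P => Ideal.pow_le_self (he P).ne' (hpPe P)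
  have hzI : ((p : ℕ) : 𝓞 F ⧸ I) = 0 := by
    rw [← map_natCast (Ideal.Quotient.mk I)]
    exact Ideal.Quotient.eq_zero_iff_mem.2 hpI
  have hzP : ∀ P : S, ((p : ℕ) : 𝓞 F ⧸ P.1 ^ e P) = 0 := fun P => by
    rw [← map_natCast (Ideal.Quotient.mk (P.1 ^ e P))]
    exact Ideal.Quotient.eq_zero_iff_mem.2 (hpPe P)
  let _ : Algebra (ZMod p) (𝓞 F ⧸ I) := (zHom p (𝓞 F ⧸ I) hzI).toAlgebra
  let _ : ∀ P : S, Algebra (ZMod p) (𝓞 F ⧸ P.1 ^ e P) := fun P => (zHom p _ (hzP P)).toAlgebra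
  have hfin : ∀ P : S, Finite (𝓞 F ⧸ P.1 ^ e P) := fun P =>
    Ideal.finiteQuotientOfFreeOfNeBot _ (pow_ne_zero _ (hP0 P))
  have hfd : ∀ P : S, FiniteDimensional (ZMod p) (𝓞 F ⧸ P.1 ^ e P) := fun P => Module.Finite.of_finite
  choose f φ hker hfrob hdim hnm using fun P : S => residue_emb F P.1 (hPp P) (hP0 P) (hpP P) (e P) (he P) (hpPe P)
  let E0 : (𝓞 F ⧸ I) ≃+* ∀ P : S, 𝓞 F ⧸ P.1 ^ e P := quotientEquivPiFactors hI
  let E : (𝓞 F ⧸ I) ≃ₐ[ZMod p] (∀ P : S, 𝓞 F ⧸ P.1 ^ e P) :=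
    AlgEquiv.ofRingEquiv (f := E0) (fun r => RingHom.congr_fun (Subsingleton.elim
      ((E0 : (𝓞 F ⧸ I) →+* (∀ P : S, 𝓞 F ⧸ P.1 ^ e P)).comp (algebraMap (ZMod p) (𝓞 F ⧸ I)))
      (algebraMap (ZMod p) (∀ P : S, 𝓞 F ⧸ P.1 ^ e P))) r)
  refine ⟨S, inferInstance, fun P => ⟨P.1, hPp P, hP0 P⟩, e, f, φ, hker, hfrob, ?_, fun P => ?_, fun w hw => ?_, ?_,
    fun u => ?_⟩
  · intro P Q h
    exact Subtype.ext (congrArg HeightOneSpectrum.asIdeal h)
  · rw [HeightOneSpectrum.intValuation_if_neg _ hp0, Ideal.count_associates_factors_eq hI (hPp P) (hP0 P),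
      ← factors_eq_normalizedFactors]
  · have h1 : w.asIdeal ∣ I := by
      rw [Ideal.dvd_iff_le, Ideal.span_le, Set.singleton_subset_iff]
      exact hw
    have h2 : w.asIdeal ∈ factors I := by
      obtain ⟨q, hq, hqa⟩ := exists_mem_factors_of_dvd hI w.irreducible h1
      rwa [associated_iff_eq.1 hqa]
    exact ⟨⟨w.asIdeal, Multiset.mem_toFinset.2 h2⟩, HeightOneSpectrum.ext rfl⟩
  · have h1 : finrank (ZMod p) (𝓞 F ⧸ I) = ∑ P : S, e P * f P := by
      rw [E.toLinearEquiv.finrank_eq, Module.finrank_pi_fintype]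
      exact sum_congr rfl fun P _ => hdim P
    have hfinI : Finite (𝓞 F ⧸ I) := Ideal.finiteQuotientOfFreeOfNeBot _ hI
    have hfdI : FiniteDimensional (ZMod p) (𝓞 F ⧸ I) := Module.Finite.of_finite
    have h2 : Ideal.absNorm I = p ^ finrank ℤ (𝓞 F) := Ideal.absNorm_span_natCast p
    rw [Ideal.absNorm_apply, Submodule.cardQuot_apply,
      Module.natCard_eq_pow_finrank (K := ZMod p) (V := 𝓞 F ⧸ I), Nat.card_zmod, RingOfIntegers.rank] at h2
    rw [← h1]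
    exact Nat.pow_right_injective hp.out.two_le h2
  · have h1 := norm_mod (𝓞 F) (p := p) u
    have h2 : Algebra.norm (ZMod p) (Ideal.Quotient.mk I u) =
        ∏ P : S, Algebra.norm (ZMod p) (Ideal.Quotient.mk (P.1 ^ e P) u) := by
      rw [← Algebra.norm_eq_of_algEquiv E, norm_pi]
      rfl
    rw [h2] at h1
    have h3 := congrArg (algebraMap (ZMod p) (AlgebraicClosure (ZMod p))) h1
    rw [map_intCast, map_prod] at h3
    rw [h3]
    exact prod_congr rfl fun P _ => hnm P u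

end Pool.Agent.T9h60.OD
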