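import Mathlib
import Pool.Agent.T9h60.OD.NormF
import Pool.Agent.T9h60.OD.Approx
import Pool.Agent.T9h60.OD.Cheb

set_option autoImplicit false

/-! The coverings over a number field at the places over a prime number of good reduction. -/

namespace Pool.Agent.T9h60.OD
open Finset Polynomial NumberField IsDedekindDomain WithZero
open Pool.Agent.R925.FD (hom hom_map hom_mul hom_one hom_div hom_zero_right)

/-- The conditions on the primes. -/
lemma good_any {K : Type} [Fintype K] (g : K → ℤ[X]) (h : ℤ[X])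
    (hg0 : ∀ k, g k ≠ 0) (hh0 : h ≠ 0)
    (hgg : ∀ k l, k ≠ l → IsCoprime ((g k).map (Int.castRingHom ℚ)) ((g l).map (Int.castRingHom ℚ)))
    (hgh : ∀ k, IsCoprime (h.map (Int.castRingHom ℚ)) ((g k).map (Int.castRingHom ℚ))) :
    ∃ N : ℕ, 0 < N ∧ ∀ (κ : Type) [Field κ], (N : κ) ≠ 0 → ∀ u v : κ, (u ≠ 0 ∨ v ≠ 0) →
      (∀ k l, k ≠ l → hom (g k) u v = 0 → hom (g l) u v ≠ 0) ∧
      ∀ k, hom h u v = 0 → hom (g k) u v ≠ 0 := by
  classical
  choose N1 hN1 hN1' using fun k => coprime_any h (g k) hh0 (hgh k)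
  choose N2 hN2 hN2' using fun x : {x : K × K // x.1 ≠ x.2} =>
    coprime_any (g x.1.1) (g x.1.2) (hg0 _) (hgg _ _ x.2)
  refine ⟨(∏ k, (N1 k).natAbs) * ∏ x, (N2 x).natAbs, Nat.mul_pos (Finset.prod_pos fun k _ => Int.natAbs_pos.2 (hN1 k))
    (Finset.prod_pos fun x _ => Int.natAbs_pos.2 (hN2 x)), ?_⟩
  intro κ _ hN u v huv
  have hcast : ∀ a : ℤ, a.natAbs ∣ (∏ k, (N1 k).natAbs) * ∏ x, (N2 x).natAbs → (a : κ) ≠ 0 := by
    intro a ha h1
    obtain ⟨c, hc⟩ := ha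
    apply hN
    rw [hc, Nat.cast_mul]
    have h2 : ((a.natAbs : ℕ) : κ) = 0 := by
      rcases Int.natAbs_eq a with h2 | h2
      · rw [h2, Int.cast_natCast] at h1
        exact h1
      · rw [h2, Int.cast_neg, Int.cast_natCast, neg_eq_zero] at h1
        exact h1
    rw [h2, zero_mul]
  refine ⟨fun k l hkl => ?_, fun k => ?_⟩
  · refine hN2' ⟨(k, l), hkl⟩ κ (hcast _ ?_) u v huv
    exact (dvd_prod_of_mem (fun x => (N2 x).natAbs) (mem_univ _)).trans (Dvd.intro_left _ rfl)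
  · refine hN1' k κ (hcast _ ?_) u v huv
    exact (dvd_prod_of_mem (fun k => (N1 k).natAbs) (mem_univ k)).trans (Dvd.intro _ rfl)

lemma norm_frob {p : ℕ} [hp : Fact p.Prime] {κ : Type} [Field κ] {x : κ} {f : ℕ} (hx : x ^ (p ^ f) = x) :
    (∏ j ∈ range f, x ^ (p ^ j)) ^ p = ∏ j ∈ range f, x ^ (p ^ j) := by
  rcases eq_or_ne x 0 with h0 | h0
  · rcases Nat.eq_zero_or_pos f with hf | hf
    · rw [hf, range_zero, prod_empty, one_pow]
    · have h1 : ∏ j ∈ range f, x ^ (p ^ j) = 0 := by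
        refine prod_eq_zero (mem_range.2 hf) ?_
        rw [pow_zero, pow_one, h0]
      rw [h1, zero_pow hp.out.ne_zero]
  · rw [← prod_pow]
    have h1 : ∀ q, (x ^ (p ^ q)) ^ p = x ^ (p ^ (q + 1)) := fun q => by rw [← pow_mul, ← pow_succ]
    rw [prod_congr rfl fun q _ => h1 q]
    have h2 := prod_range_succ (fun q => x ^ (p ^ q)) f
    rw [prod_range_succ', hx, pow_zero, pow_one] at h2
    exact mul_right_cancel₀ h0 h2

variable {F : Type} [Field F] [NumberField F]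

lemma notMem_of {v : HeightOneSpectrum (𝓞 F)} {p : ℕ} (hp : p.Prime) (hpv : (p : 𝓞 F) ∈ v.asIdeal) {b : ℤ}
    (hb : ¬ (p : ℤ) ∣ b) : (b : 𝓞 F) ∉ v.asIdeal := by
  intro h1
  have h2 : IsCoprime (p : ℤ) b := (Prime.coprime_iff_not_dvd (Nat.prime_iff_prime_int.1 hp)).2 hb
  obtain ⟨x, y, hxy⟩ := h2
  apply v.isPrime.ne_top
  rw [Ideal.eq_top_iff_one]
  have h3 : (1 : 𝓞 F) = (x : 𝓞 F) * (p : 𝓞 F) + (y : 𝓞 F) * (b : 𝓞 F) := by
    have h4 := congrArg (Int.cast : ℤ → 𝓞 F) hxy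
    push_cast at h4
    exact h4.symm
  rw [h3]
  exact v.asIdeal.add_mem (v.asIdeal.mul_mem_left _ hpv) (v.asIdeal.mul_mem_left _ h1)

lemma residue_ne {v : HeightOneSpectrum (𝓞 F)} {p : ℕ} (hp : p.Prime) (hpv : (p : 𝓞 F) ∈ v.asIdeal) {N : ℕ}
    (hN : ¬ p ∣ N) : (N : IsLocalRing.ResidueField (v.adicCompletionIntegers F)) ≠ 0 := by
  intro h1
  have h2 := (Pool.Agent.Q68.SX.residue_eq_zero_iff (K := F) v (algebraMap (𝓞 F) _ ((N : ℤ) : 𝓞 F))).1 (by
    rw [Int.cast_natCast, map_natCast, map_natCast]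
    exact h1)
  have h3 : ((algebraMap (𝓞 F) (v.adicCompletionIntegers F) ((N : ℤ) : 𝓞 F) : v.adicCompletionIntegers F) :
      v.adicCompletion F) = algebraMap F (v.adicCompletion F) (algebraMap (𝓞 F) F ((N : ℤ) : 𝓞 F)) := rfl
  rw [h3, val_F] at h2
  have h4 := (HeightOneSpectrum.valuation_lt_one_iff_mem (K := F) v ((N : ℤ) : 𝓞 F)).1 h2
  exact notMem_of hp hpv (fun h5 => hN (by exact_mod_cast h5)) h4

lemma val_int {v : HeightOneSpectrum (𝓞 F)} {p : ℕ} (hp : p.Prime) {e : ℕ}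
    (hpv : v.intValuation (p : 𝓞 F) = exp (-(e : ℤ))) (he : 0 < e) {a : ℤ} (ha : a ≠ 0) :
    v.valuation F (a : F) = exp (-((e : ℤ) * padicValInt p a)) := by
  have hF : Fact p.Prime := ⟨hp⟩
  have hpm : (p : 𝓞 F) ∈ v.asIdeal := by
    rw [← HeightOneSpectrum.intValuation_lt_one_iff_mem, hpv, ← exp_zero, exp_lt_exp]
    omega
  obtain ⟨a', ha'⟩ : (p : ℤ) ^ (padicValInt p a) ∣ a := by
    have := padicValInt_dvd (p := p) a
    exact this
  have hna : ¬ (p : ℤ) ∣ a' := by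
    rintro ⟨c, hc⟩
    have h1 : (p : ℤ) ^ (padicValInt p a + 1) ∣ a := ⟨c, by
      rw [pow_succ, mul_assoc, ← hc]
      exact ha'⟩
    rw [padicValInt_dvd_iff] at h1
    rcases h1 with h1 | h1
    · exact ha h1
    · omega
  have h1 : (a : F) = algebraMap (𝓞 F) F (a : 𝓞 F) := (map_intCast _ _).symm
  have h2 : (a : 𝓞 F) = (p : 𝓞 F) ^ (padicValInt p a) * (a' : 𝓞 F) := by
    have h4 := congrArg (Int.cast : ℤ → 𝓞 F) ha'
    push_cast at h4
    exact h4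
  have h3 : v.intValuation (a' : 𝓞 F) = 1 := by
    have h4 := (v.valuation_eq_one_iff_notMem (K := F)).2 (notMem_of hp hpm hna)
    rwa [v.valuation_of_algebraMap] at h4
  rw [h1, v.valuation_of_algebraMap, h2, map_mul, h3, mul_one, map_pow, hpv, ← exp_nsmul, nsmul_eq_mul]
  congr 1
  ring

end Pool.Agent.T9h60.OD
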