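import Mathlib
import Pool.Agent.T9h60.OD.Prime

set_option autoImplicit false

/-! The coverings over a number field at the places over a prime number of good reduction: the norms. -/

namespace Pool.Agent.T9h60.OD
open Finset Polynomial NumberField IsDedekindDomain WithZero
open Pool.Agent.R925.FD (hom hom_map hom_mul hom_one hom_div hom_zero_right)

variable {F : Type} [Field F] [NumberField F]

theorem at_prime {K : Type} [Fintype K] {n m : ℕ} (hn : 0 < n) (hnm : n ∣ m) {g : K → ℤ[X]} {h : ℤ[X]}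
    (hdeg : ∀ k, n ∣ (g k).natDegree) (hdegh : m ∣ h.natDegree) (hm2 : 2 ≤ m)
    {δ : K → F} (hδ : ∀ k, δ k ≠ 0) {b : ℤ} {t : F} (ht : ∏ k, δ k = b * t ^ n) (a : ℤ)
    (hloc : ∀ v : HeightOneSpectrum (𝓞 F), LocalPoint n m a g h δ (v.adicCompletion F))
    {p : ℕ} [hp : Fact p.Prime] {N : ℕ} (hN : ∀ (κ : Type) [Field κ], (N : κ) ≠ 0 → ∀ u v : κ, (u ≠ 0 ∨ v ≠ 0) →
      (∀ k l, k ≠ l → hom (g k) u v = 0 → hom (g l) u v ≠ 0) ∧
      ∀ k, hom h u v = 0 → hom (g k) u v ≠ 0) (hpN : ¬ p ∣ N) (hpb : ¬ (p : ℤ) ∣ b) :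
    (∀ k, (n : ℤ) ∣ padicValRat p (Algebra.norm ℚ (δ k))) ∧
    ((padicValInt p a).Coprime h.natDegree → ∀ (s : K → ℤ) (c : K → ℚ), (∀ k, ¬ (p : ℤ) ∣ s k) →
      (∀ k, c k ≠ 0) → (∀ k, Algebra.norm ℚ (δ k) = s k * c k ^ n) →
        RR p n (Module.finrank ℚ F) g h s) := by
  classical
  obtain ⟨S, iS, v, e, f, φ, hker, hfrob, hinj, hval, hall, hsum, hnorm⟩ := norm_formula F p
  let k' := AlgebraicClosure (ZMod p)
  have hpv : ∀ i, (p : 𝓞 F) ∈ (v i).asIdeal := by
    intro i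
    rw [← hker i, RingHom.mem_ker, map_natCast, CharP.cast_eq_zero]
  have he : ∀ i, 0 < e i := by
    intro i
    have h1 := (HeightOneSpectrum.intValuation_lt_one_iff_mem (v i) (p : 𝓞 F)).2 (hpv i)
    rw [hval i, ← exp_zero, exp_lt_exp] at h1
    omega
  have hm : 0 < m := by omega
  have hL := fun i => local_main (v i) hn hm hdeg hdegh hδ ht (by
    have h1 := (HeightOneSpectrum.valuation_eq_one_iff_notMem (K := F) (v i)).2 (notMem_of hp.out (hpv i) hpb)
    rw [map_intCast] at h1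
    exact h1) a (hN _ (residue_ne hp.out (hpv i) hpN)) (hloc (v i))
  have hSne : (univ.image v).Nonempty := by
    rw [image_nonempty]
    by_contra h1
    rw [not_nonempty_iff_eq_empty] at h1
    rw [h1, sum_empty] at hsum
    have h2 : 0 < Module.finrank ℚ F := Module.finrank_pos
    omega
  choose c' u hc' hu huv using fun k => clear hSne hn (δ k) (hδ k) (fun w hw => by
    obtain ⟨i, -, rfl⟩ := mem_image.1 hw
    exact (hL i).1 k)
  have hφu : ∀ i k, φ i (u k) ≠ 0 := by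
    intro i k h1
    have h2 : u k ∈ RingHom.ker (φ i) := h1
    rw [hker i] at h2
    exact huv k (v i) (mem_image_of_mem _ (mem_univ i)) h2
  have hNu0 : ∀ k, ((Algebra.norm ℤ (u k) : ℤ) : k') ≠ 0 := by
    intro k
    rw [hnorm]
    exact prod_ne_zero_iff.2 fun i _ => pow_ne_zero _ (prod_ne_zero_iff.2 fun j _ => pow_ne_zero _ (hφu i k))
  have hNup : ∀ k, ¬ (p : ℤ) ∣ Algebra.norm ℤ (u k) := by
    intro k h1
    exact hNu0 k ((CharP.intCast_eq_zero_iff k' p _).2 h1)
  have hNu : ∀ k, ((Algebra.norm ℤ (u k) : ℤ) : ℚ) = Algebra.norm ℚ (δ k) * (Algebra.norm ℚ (c' k)) ^ n := by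
    intro k
    rw [Algebra.coe_norm_int]
    have h1 : ((u k : 𝓞 F) : F) = δ k * c' k ^ n := hu k
    rw [h1, map_mul, map_pow]
  have hNδ : ∀ k, Algebra.norm ℚ (δ k) ≠ 0 := fun k => Algebra.norm_ne_zero_iff.2 (hδ k)
  have hNc : ∀ k, Algebra.norm ℚ (c' k) ≠ 0 := fun k => Algebra.norm_ne_zero_iff.2 (hc' k)
  refine ⟨fun k => ?_, fun hcop s c hs hc hsc => ?_⟩
  · have h1 := congrArg (padicValRat p) (hNu k)
    rw [padicValRat.of_int, padicValInt.eq_zero_of_not_dvd (hNup k), padicValRat.mul (hNδ k) (pow_ne_zero _ (hNc k)),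
      padicValRat.pow] at h1
    exact ⟨-padicValRat p (Algebra.norm ℚ (c' k)), by push_cast at h1; linarith⟩
  -- the places where the point reduces to a zero of `h`
  have ha0 : a ≠ 0 := by
    rintro rfl
    rw [padicValInt.zero, Nat.coprime_zero_left] at hcop
    have := Nat.le_of_dvd (by omega) hdegh
    omega
  have hcopm : (padicValInt p a).Coprime m := Nat.Coprime.coprime_dvd_right hdegh hcop
  let T := {i : S // ¬ m ∣ e i}
  have hTval : ∀ i : T, ¬ ∃ j : ℤ, (v i.1).valuation F (a : F) = exp ((m : ℤ) * j) := by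
    rintro ⟨i, hi⟩ ⟨j, hj⟩
    rw [val_int hp.out (hval i) (he i) ha0, exp_inj] at hj
    apply hi
    have h1 : (m : ℤ) ∣ (e i : ℤ) * (padicValInt p a : ℤ) := ⟨-j, by linarith⟩
    have h2 : m ∣ e i * padicValInt p a := by exact_mod_cast h1
    exact Nat.Coprime.dvd_of_dvd_mul_right hcopm.symm h2
  choose z₀ w₀ hzw₀ hh₀ ht₀ using fun i : T => (hL i.1).2 (hTval i)
  choose t₀ ht₀' using fun (i : T) (k : K) => ht₀ i k (c' k) (u k) (hc' k) (hu k) (huv k (v i.1)
    (mem_image_of_mem _ (mem_univ i.1)))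
  have hφv : ∀ i x, φ i x = 0 ↔ x ∈ (v i).asIdeal := by
    intro i x
    rw [← hker i]
    exact Iff.rfl
  have hgz : ∀ (i : T) k, hom (g k) (φ i.1 (z₀ i)) (φ i.1 (w₀ i)) = φ i.1 (u k) * (φ i.1 (t₀ i k)) ^ n := by
    intro i k
    have h1 := (hφv i.1 _).2 (ht₀' i k)
    rw [map_sub, hom_map, map_mul, map_pow, sub_eq_zero] at h1
    exact h1
  -- the degrees
  have hesplit : ∀ i : S, m ∣ e i → n ∣ e i := fun i hi => hnm.trans hi
  have hsumT : ∑ i : T, e i.1 * f i.1 ≡ Module.finrank ℚ F [MOD n] := by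
    have h1 : ∑ i : T, e i.1 * f i.1 = ∑ i ∈ univ.filter (fun i => ¬ m ∣ e i), e i * f i := by
      rw [← sum_subtype (univ.filter fun i => ¬ m ∣ e i) (fun i => by simp) (fun i => e i * f i)]
    rw [h1, ← hsum, ← sum_filter_add_sum_filter_not univ (fun i => ¬ m ∣ e i) (fun i => e i * f i)]
    have h2 : n ∣ ∑ i ∈ univ.filter (fun i => ¬ ¬ m ∣ e i), e i * f i := by
      refine dvd_sum fun i hi => ?_
      have h3 := (mem_filter.1 hi).2
      rw [not_not] at h3
      exact (hesplit i h3).mul_right _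
    obtain ⟨q, hq⟩ := h2
    rw [hq]
    exact (Nat.ModEq.symm (by
      show (_ + n * q) % n = _ % n
      rw [Nat.add_mul_mod_self_left]))
  refine ⟨T, inferInstance, fun i => φ i.1 (z₀ i), fun i => φ i.1 (w₀ i), fun i => f i.1, fun i => e i.1, hsumT, ?_, ?_⟩
  · intro i
    refine ⟨hfrob _ _, hfrob _ _, ?_, ?_⟩
    · rcases hzw₀ i with h1 | h1
      · exact Or.inl (fun h2 => h1 ((hφv _ _).1 h2))
      · exact Or.inr (fun h2 => h1 ((hφv _ _).1 h2))
    · rw [← hom_map]
      exact (hφv _ _).2 (hh₀ i)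
  · intro k
    -- the products
    let P : S → k' := fun i => ∏ j ∈ range (f i), φ i (u k) ^ (p ^ j)
    let R : T → k' := fun i => ∏ j ∈ range (f i.1), φ i.1 (t₀ i k) ^ (p ^ j)
    have hPp : ∀ i, P i ^ p = P i := fun i => norm_frob (hfrob _ _)
    have hRp : ∀ i, R i ^ p = R i := fun i => norm_frob (hfrob _ _)
    have hP0 : ∀ i, P i ≠ 0 := fun i => prod_ne_zero_iff.2 fun j _ => pow_ne_zero _ (hφu i k)
    have hNP : ((Algebra.norm ℤ (u k) : ℤ) : k') = ∏ i, P i ^ e i := hnorm (u k)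
    obtain ⟨M, hM⟩ : ∃ M : k', M = ∏ i ∈ univ.filter (fun i => ¬ ¬ m ∣ e i), P i ^ (e i / n) := ⟨_, rfl⟩
    have hM0 : M ≠ 0 := by
      rw [hM]
      exact prod_ne_zero_iff.2 fun i _ => pow_ne_zero _ (hP0 i)
    have hMp : M ^ p = M := by
      rw [hM, ← prod_pow]
      apply prod_congr rfl
      intro i _
      rw [← pow_mul, mul_comm, pow_mul, hPp]
    have hsplit : ((Algebra.norm ℤ (u k) : ℤ) : k') = (∏ i : T, P i.1 ^ e i.1) * M ^ n := by
      rw [hNP]
      have h1 : ∏ i : T, P i.1 ^ e i.1 = ∏ i ∈ univ.filter (fun i => ¬ m ∣ e i), P i ^ e i := by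
        rw [← prod_subtype (univ.filter fun i => ¬ m ∣ e i) (fun i => by simp) (fun i => P i ^ e i)]
      rw [h1, ← prod_filter_mul_prod_filter_not univ (fun i => ¬ m ∣ e i) (fun i => P i ^ e i)]
      congr 1
      rw [hM, ← prod_pow]
      apply prod_congr rfl
      intro i hi
      have h3 := (mem_filter.1 hi).2
      rw [not_not] at h3
      rw [← pow_mul, Nat.div_mul_cancel (hesplit i h3)]
    obtain ⟨R', hR'⟩ : ∃ R' : k', R' = ∏ i : T, R i ^ e i.1 := ⟨_, rfl⟩
    have hR'p : R' ^ p = R' := by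
      rw [hR', ← prod_pow]
      apply prod_congr rfl
      intro i _
      rw [← pow_mul, mul_comm, pow_mul, hRp]
    have hprod : ∏ i : T, (∏ j ∈ range (f i.1), (hom (g k) (φ i.1 (z₀ i)) (φ i.1 (w₀ i))) ^ (p ^ j)) ^ (e i.1) =
        (∏ i : T, P i.1 ^ e i.1) * R' ^ n := by
      rw [hR', ← prod_pow, ← prod_mul_distrib]
      apply prod_congr rfl
      intro i _
      rw [← pow_mul, mul_comm (e i.1) n, pow_mul, ← mul_pow]
      congr 1
      show _ = (∏ j ∈ range (f i.1), φ i.1 (u k) ^ (p ^ j)) * (∏ j ∈ range (f i.1), φ i.1 (t₀ i k) ^ (p ^ j)) ^ n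
      rw [← prod_pow, ← prod_mul_distrib]
      apply prod_congr rfl
      intro j _
      rw [hgz, mul_pow, ← pow_mul, ← pow_mul, mul_comm n (p ^ j)]
    -- the rational number `q` with `N (u) = s q ^ n`
    obtain ⟨q, hq⟩ : ∃ q : ℚ, q = c k * Algebra.norm ℚ (c' k) := ⟨_, rfl⟩
    have hq0 : q ≠ 0 := by
      rw [hq]
      exact mul_ne_zero (hc k) (hNc k)
    have hNq : ((Algebra.norm ℤ (u k) : ℤ) : ℚ) = s k * q ^ n := by
      rw [hNu, hsc, hq]
      ring
    have hsk0 : (s k : ℚ) ≠ 0 := by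
      intro h1
      exact hs k (by rw [Int.cast_eq_zero.1 h1]; exact dvd_zero _)
    have hvq : padicValRat p q = 0 := by
      have h1 := congrArg (padicValRat p) hNq
      rw [padicValRat.of_int, padicValInt.eq_zero_of_not_dvd (hNup k), padicValRat.mul hsk0 (pow_ne_zero _ hq0),
        padicValRat.pow, padicValRat.of_int, padicValInt.eq_zero_of_not_dvd (hs k)] at h1
      push_cast at h1
      have h2 : (n : ℤ) * padicValRat p q = 0 := by linarith
      exact (mul_eq_zero.1 h2).resolve_left (by exact_mod_cast hn.ne')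
    have hqn : q.num ≠ 0 := Rat.num_ne_zero.2 hq0
    have hcopq := q.reduced
    have hden : ¬ (p : ℤ) ∣ (q.den : ℤ) ∧ ¬ (p : ℤ) ∣ q.num := by
      rw [padicValRat_def] at hvq
      have h1 : padicValInt p q.num = padicValNat p q.den := by
        have : (padicValInt p q.num : ℤ) = (padicValNat p q.den : ℤ) := by linarith
        exact_mod_cast this
      have h2 : ¬ (p ∣ q.num.natAbs ∧ p ∣ q.den) := by
        rintro ⟨h3, h4⟩
        have h5 := Nat.dvd_gcd h3 h4
        rw [Nat.Coprime] at hcopq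
        rw [hcopq] at h5
        exact hp.out.one_lt.ne' (Nat.dvd_one.1 h5)
      have h3 : ∀ h4 : p ∣ q.den, False := by
        intro h4
        have h5 : 1 ≤ padicValNat p q.den := one_le_padicValNat_of_dvd q.den_nz h4
        rw [← h1] at h5
        refine h2 ⟨?_, h4⟩
        by_contra h6
        have h7 : padicValInt p q.num = 0 := padicValNat.eq_zero_of_not_dvd h6
        omega
      have h4 : padicValNat p q.den = 0 := padicValNat.eq_zero_of_not_dvd h3
      refine ⟨fun h5 => h3 (by exact_mod_cast h5), fun h5 => ?_⟩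
      have h6 : 1 ≤ padicValInt p q.num := one_le_padicValNat_of_dvd (Int.natAbs_ne_zero.2 hqn) (Int.natCast_dvd.1 h5)
      omega
    have hdenk : ((q.den : ℤ) : k') ≠ 0 := fun h1 => hden.1 ((CharP.intCast_eq_zero_iff k' p _).1 h1)
    have hint : Algebra.norm ℤ (u k) * (q.den : ℤ) ^ n = s k * q.num ^ n := by
      have h1 : ((Algebra.norm ℤ (u k) : ℤ) : ℚ) * (q.den : ℚ) ^ n = s k * (q.num : ℚ) ^ n := by
        rw [hNq, mul_assoc, ← mul_pow, Rat.mul_den_eq_num]
      exact_mod_cast h1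
    have hintk : ((Algebra.norm ℤ (u k) : ℤ) : k') * ((q.den : ℤ) : k') ^ n = (s k : k') * (q.num : k') ^ n := by
      have h1 : ((Algebra.norm ℤ (u k) * (q.den : ℤ) ^ n : ℤ) : k') = ((s k * q.num ^ n : ℤ) : k') := by rw [hint]
      rw [Int.cast_mul, Int.cast_mul, Int.cast_pow, Int.cast_pow] at h1
      exact h1
    have hintp : ∀ a : ℤ, (a : k') ^ p = a := by
      intro a
      have h1 : (a : k') = algebraMap (ZMod p) k' (a : ZMod p) := (map_intCast _ _).symm
      rw [h1, ← map_pow, ZMod.pow_card]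
    refine ⟨(q.num : k') / ((q.den : ℤ) : k') * R' / M, ?_, ?_⟩
    · rw [div_pow, mul_pow, div_pow, hintp, hintp, hR'p, hMp]
    · rw [hprod]
      rw [hsplit] at hintk
      have h1 : (∏ i : T, P i.1 ^ e i.1) = (s k : k') * (q.num : k') ^ n / (M ^ n * ((q.den : ℤ) : k') ^ n) := by
        rw [eq_div_iff (mul_ne_zero (pow_ne_zero _ hM0) (pow_ne_zero _ hdenk)), ← hintk]
        ring
      rw [h1, div_pow, mul_pow, div_pow]
      have h2 : ∀ (κ : Type) [Field κ] (a1 a2 a3 a4 a5 : κ), a3 ≠ 0 → a4 ≠ 0 →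
          a1 * a2 / (a3 * a4) * a5 = a1 * (a2 / a4 * a5 / a3) := by
        intro κ _ a1 a2 a3 a4 a5 h3 h4
        field_simp
      exact h2 _ _ _ _ _ _ (pow_ne_zero _ hM0) (pow_ne_zero _ hdenk)

end Pool.Agent.T9h60.OD
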