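import Mathlib
import Pool.Agent.T9h60.OD.AtP
import Pool.Agent.T9h60.FD.Crit

set_option autoImplicit false

/-! The criterion for the coverings over all number fields. -/

namespace Pool.Agent.T9h60.OD
open Finset Polynomial NumberField IsDedekindDomain WithZero
open Pool.Agent.R925.FD (hom hom_map hom_mul hom_one hom_div hom_zero_right rep)
open Pool.Agent.W401.Cheb Pool.Agent.W723.SecC
open Pool.Agent.T9h60.FD (FrobCrit)

/-- The class `D` is persistent of degree `r`: for every automorphism `σ` of the field of algebraic numbers there are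
multiplicities `ε` of the zeros `β` of `h`, invariant under `σ`, of sum congruent to `r` modulo `n`, such that for all `k`
the product of the `g k (β) ^ ε (β)` is of the form `D k * y ^ n` with `σ y = y`. -/
def PersistentDeg {K : Type} (n r : ℕ) (g : K → ℤ[X]) (h : ℤ[X]) (D : K → ℚ) : Prop :=
  ∀ σ : Qb ≃ₐ[ℚ] Qb, PersAt σ n r g h D

lemma persAt_mod {K : Type} {σ : Qb ≃ₐ[ℚ] Qb} {n r r' : ℕ} {g : K → ℤ[X]} {h : ℤ[X]} {D : K → ℚ}
    (hr : r ≡ r' [MOD n]) (hp : PersAt σ n r g h D) : PersAt σ n r' g h D := by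
  obtain ⟨ε, h1, h2, h3⟩ := hp
  exact ⟨ε, h1, h2.trans hr, h3⟩

lemma rr_mod {p : ℕ} [Fact p.Prime] {K : Type} {n r r' : ℕ} {g : K → ℤ[X]} {h : ℤ[X]} {s : K → ℤ}
    (hr : r ≡ r' [MOD n]) (hp : RR p n r g h s) : RR p n r' g h s := by
  obtain ⟨T, iT, z, w, f, e, h1, h2⟩ := hp
  exact ⟨T, iT, z, w, f, e, h1.trans hr, h2⟩

/-- The classes `δ` over number fields `F` whose coverings have points over the completions of `F` have persistent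
norms. -/
def ODProp {K : Type} [Fintype K] (n : ℕ) (b : ℤ) (g : K → ℤ[X]) (h : ℤ[X]) (a : ℤ) : Prop :=
  ∀ m, 2 ≤ m → n ∣ m → m ∣ h.natDegree → ∀ (F : Type) [Field F] [NumberField F] (δ : K → F), (∀ k, δ k ≠ 0) →
    (∃ t : F, ∏ k, δ k = b * t ^ n) →
    (∀ v : HeightOneSpectrum (𝓞 F), LocalPoint n m a g h δ (v.adicCompletion F)) →
    PersistentDeg n (Module.finrank ℚ F) g h (fun k => Algebra.norm ℚ (δ k))

theorem od_crit {K : Type} [Fintype K] (n : ℕ) (hn : 0 < n) (b : ℤ) (hb : b ≠ 0) (g : K → ℤ[X])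
    (h : ℤ[X]) (hg0 : ∀ k, g k ≠ 0) (hh0 : h ≠ 0) (hdeg : ∀ k, n ∣ (g k).natDegree)
    (hgg : ∀ k l, k ≠ l →
      IsCoprime ((g k).map (Int.castRingHom ℚ)) ((g l).map (Int.castRingHom ℚ)))
    (hgh : ∀ k, IsCoprime (h.map (Int.castRingHom ℚ)) ((g k).map (Int.castRingHom ℚ))) :
    FrobCrit h.natDegree (ODProp n b g h) := by
  classical
  obtain ⟨N0, hN0, hgood⟩ := good_any g h hg0 hh0 hgg hgh
  set N : ℕ := N0 * b.natAbs with hN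
  have hNpos : 0 < N := Nat.mul_pos hN0 (Int.natAbs_pos.2 hb)
  have hgoodN : ∀ p : ℕ, ¬ p ∣ N → ¬ p ∣ N0 ∧ ¬ (p : ℤ) ∣ b := fun p hp =>
    ⟨fun h1 => hp (h1.trans (Dvd.intro _ rfl)),
      fun h1 => hp ((Int.natCast_dvd.1 h1).trans (Dvd.intro_left _ rfl))⟩
  -- the finite set of the classes
  set D : Finset ℤ := (Finset.Icc (-((N : ℤ) ^ n)) ((N : ℤ) ^ n)).filter (fun s => s ∣ (N : ℤ) ^ n)
    with hD
  have hNn : (0 : ℤ) < (N : ℤ) ^ n := pow_pos (by exact_mod_cast hNpos) n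
  have hmemD : ∀ s : ℤ, s ∣ (N : ℤ) ^ n → s ∈ D := by
    intro s hs
    rw [hD, mem_filter, Finset.mem_Icc]
    have h1 := Int.le_of_dvd hNn hs
    have h2 := Int.le_of_dvd hNn ((neg_dvd).2 hs)
    exact ⟨⟨by linarith, h1⟩, hs⟩
  have hD0 : ∀ s ∈ D, s ≠ 0 := by
    rintro s hs rfl
    rw [hD, mem_filter] at hs
    exact hNn.ne' (zero_dvd_iff.1 hs.2)
  set Δ : Finset ((K → ℤ) × ℕ) := ((Fintype.piFinset fun _ : K => D) ×ˢ range n).filter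
    (fun s => ¬ PersistentDeg n s.2 g h (fun k => (s.1 k : ℚ))) with hΔ
  have hmemΔ : ∀ s : (K → ℤ) × ℕ, s ∈ Δ ↔ ((∀ k, s.1 k ∈ D) ∧ s.2 < n) ∧
      ¬ PersistentDeg n s.2 g h (fun k => (s.1 k : ℚ)) := by
    intro s
    rw [hΔ, mem_filter, mem_product, Fintype.mem_piFinset, mem_range]
  have hex : ∀ s : Δ, ∃ (L : Type) (_ : Field L) (_ : NumberField L) (_ : IsGalois ℚ L)
      (τ : Gal(L/ℚ)) (m : ℕ), 0 < m ∧ ∀ p ∈ frobSet L τ m, p.Prime ∧ ¬ p ∣ N ∧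
        ∀ _ : Fact p.Prime, ¬ RR p n s.1.2 g h s.1.1 := by
    intro s
    obtain ⟨⟨hsD, -⟩, hnp⟩ := (hmemΔ s).1 s.2
    unfold PersistentDeg at hnp
    push Not at hnp
    obtain ⟨σ, hσ⟩ := hnp
    obtain ⟨L, iF, iN, iG, τ, m, hm, hL⟩ := cheb_odd hn s.1.2 g h hh0 hdeg hgh s.1.1 (fun k => hD0 _ (hsD k)) σ hσ
    refine ⟨L, iF, iN, iG, τ, m * N, Nat.mul_pos hm hNpos, fun p hp => ⟨hp.1,
      fun h4 => hp.2.1 (h4.trans (Dvd.intro_left _ rfl)), ?_⟩⟩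
    exact hL p ⟨hp.1, fun h4 => hp.2.1 (h4.trans (Dvd.intro _ rfl)), hp.2.2⟩
  choose L iF iN iG τ m hm hL using hex
  refine ⟨Δ, inferInstance, fun s => frobSet (L s) (τ s) (m s),
    fun s => ⟨L s, iF s, iN s, iG s, τ s, m s, hm s, rfl⟩, ?_⟩
  intro a ha m' hm' hnm hmh F _ _ δ hδ ht hloc
  obtain ⟨t, ht⟩ := ht
  by_contra hnp
  have hNδ : ∀ k, Algebra.norm ℚ (δ k) ≠ 0 := fun k => Algebra.norm_ne_zero_iff.2 (hδ k)
  have hgp : ∀ p : ℕ, ¬ p ∣ N → ∀ (κ : Type) [Field κ], (N0 : κ) ≠ 0 → ∀ u v : κ, (u ≠ 0 ∨ v ≠ 0) →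
      (∀ k l, k ≠ l → hom (g k) u v = 0 → hom (g l) u v ≠ 0) ∧
      ∀ k, hom h u v = 0 → hom (g k) u v ≠ 0 := fun _ _ => hgood
  have hval : ∀ k, ∀ p : ℕ, p.Prime → ¬ p ∣ N → (n : ℤ) ∣ padicValRat p (Algebra.norm ℚ (δ k)) := by
    intro k p hp hpN
    have hpF : Fact p.Prime := ⟨hp⟩
    exact (at_prime hn hnm hdeg hmh hm' hδ ht a hloc hgood (hgoodN p hpN).1 (hgoodN p hpN).2).1 k
  choose s c hs hc hsc using fun k => rep (Algebra.norm ℚ (δ k)) (hNδ k) N hNpos n hn (hval k)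
  have hsΔ : (s, Module.finrank ℚ F % n) ∈ Δ := by
    rw [hmemΔ]
    refine ⟨⟨fun k => hmemD _ (hs k), Nat.mod_lt _ hn⟩, fun hper => hnp ?_⟩
    intro σ
    obtain ⟨ε, hε, hr, hy⟩ := hper σ
    refine ⟨ε, hε, hr.trans (Nat.mod_modEq _ _), fun k => ?_⟩
    obtain ⟨y, hyσ, hyk⟩ := hy k
    have hck : ((c k : ℚ) : Qb) ≠ 0 := Rat.cast_ne_zero.2 (hc k)
    have hσc : σ ((c k : ℚ) : Qb) = ((c k : ℚ) : Qb) := map_ratCast σ (c k)
    refine ⟨y / (c k : ℚ), ?_, ?_⟩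
    · rw [map_div₀, hyσ, hσc]
    · rw [hyk]
      show ((s k : ℚ) : Qb) * y ^ n = ((Algebra.norm ℚ (δ k) : ℚ) : Qb) * (y / (c k : ℚ)) ^ n
      rw [hsc k, div_pow]
      push_cast
      have h5 : ((c k : ℚ) : Qb) ^ n ≠ 0 := pow_ne_zero _ hck
      field_simp
  obtain ⟨p, hpQ, hpa⟩ := ha ⟨_, hsΔ⟩
  obtain ⟨hpp, hpN, hpR⟩ := hL ⟨_, hsΔ⟩ p hpQ
  have hpF : Fact p.Prime := ⟨hpp⟩
  refine hpR hpF (rr_mod (Nat.mod_modEq _ _).symm ((at_prime hn hnm hdeg hmh hm' hδ ht a hloc hgood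
    (hgoodN p hpN).1 (hgoodN p hpN).2).2 hpa s c (fun k h3 => ?_) hc hsc))
  have h4 : (p : ℤ) ∣ (N : ℤ) ^ n := h3.trans (hs k)
  have h5 := (Nat.prime_iff_prime_int.1 hpp).dvd_of_dvd_pow h4
  exact hpN (by exact_mod_cast h5)

end Pool.Agent.T9h60.OD
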