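import Mathlib
import Pool.Agent.T9h60.OD.Crit
import Pool.Agent.R925.FD.Ex

set_option autoImplicit false

/-! The example: no class is persistent of odd degree. -/

namespace Pool.Agent.T9h60.OD
open Finset Polynomial
open Pool.Agent.R925.FD

lemma neg_ne {x : Qb} (hx : x ≠ 0) : x ≠ -x := fun h => hx (self_eq_neg.1 h)

lemma prod_zs {M : Type} [CommMonoid M] (G : Qb → M) {i s : Qb} (hi : i ^ 2 = -1) (hs : s ^ 2 = 17) :
    ∏ β ∈ zs exh, G β = (G i * G (-i)) * (G s * G (-s)) * (G (i * s) * G (-(i * s))) := by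
  classical
  have ht : (i * s) ^ 2 = -17 := by rw [mul_pow, hi, hs]; ring
  have h17 : (17 : Qb) ≠ 0 := by norm_num
  have hi0 : i ≠ 0 := by
    rintro rfl
    rw [zero_pow two_ne_zero] at hi
    exact (neg_ne_zero.2 (one_ne_zero (α := Qb))) hi.symm
  have hs0 : s ≠ 0 := by
    rintro rfl
    rw [zero_pow two_ne_zero] at hs
    exact h17 hs.symm
  have ht0 : i * s ≠ 0 := mul_ne_zero hi0 hs0
  have hz : zs exh = ({i, -i} ∪ {s, -s}) ∪ {i * s, -(i * s)} := by
    ext β
    rw [mem_zs exh_ne]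
    simp only [mem_union, mem_insert, mem_singleton]
    constructor
    · intro h
      rcases aeval_exh β h with h3 | h3 | h3
      · left; left
        rw [← hi] at h3
        exact sq_eq_sq_iff_eq_or_eq_neg.1 h3
      · left; right
        rw [← hs] at h3
        exact sq_eq_sq_iff_eq_or_eq_neg.1 h3
      · right
        rw [← ht] at h3
        exact sq_eq_sq_iff_eq_or_eq_neg.1 h3
    · intro h
      have h1 : aeval β exh = (β ^ 2 + 1) * (β ^ 2 - 17) * (β ^ 2 + 17) := by
        unfold exh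
        simp [map_ofNat]
      rw [h1]
      rcases h with (h | h) | h
      · have h2 : β ^ 2 = -1 := by rcases h with rfl | rfl <;> simp [hi]
        rw [h2]; ring
      · have h2 : β ^ 2 = 17 := by rcases h with rfl | rfl <;> simp [hs]
        rw [h2]; ring
      · have h2 : β ^ 2 = -17 := by
          rcases h with rfl | rfl
          · exact ht
          · rw [neg_sq]; exact ht
        rw [h2]; ring
  have sq1 : ∀ β ∈ ({i, -i} : Finset Qb), β ^ 2 = -1 := by
    intro β h
    simp only [mem_insert, mem_singleton] at h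
    rcases h with rfl | rfl <;> simp [hi]
  have sq2 : ∀ β ∈ ({s, -s} : Finset Qb), β ^ 2 = 17 := by
    intro β h
    simp only [mem_insert, mem_singleton] at h
    rcases h with rfl | rfl <;> simp [hs]
  have sq3 : ∀ β ∈ ({i * s, -(i * s)} : Finset Qb), β ^ 2 = -17 := by
    intro β h
    simp only [mem_insert, mem_singleton] at h
    rcases h with rfl | rfl
    · exact ht
    · rw [neg_sq]; exact ht
  have d1 : Disjoint ({i, -i} : Finset Qb) {s, -s} := by
    rw [disjoint_left]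
    intro β h1 h2
    have h3 := (sq1 β h1).symm.trans (sq2 β h2)
    have h4 : (18 : Qb) = 0 := by linear_combination -h3
    exact (by norm_num : (18 : Qb) ≠ 0) h4
  have d2 : Disjoint (({i, -i} : Finset Qb) ∪ {s, -s}) {i * s, -(i * s)} := by
    rw [disjoint_left]
    intro β h1 h2
    rcases mem_union.1 h1 with h1 | h1
    · have h3 := (sq1 β h1).symm.trans (sq3 β h2)
      have h4 : (16 : Qb) = 0 := by linear_combination h3
      exact (by norm_num : (16 : Qb) ≠ 0) h4
    · have h3 := (sq2 β h1).symm.trans (sq3 β h2)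
      have h4 : (34 : Qb) = 0 := by linear_combination h3
      exact (by norm_num : (34 : Qb) ≠ 0) h4
  rw [hz, prod_union d2, prod_union d1, prod_pair (neg_ne hi0), prod_pair (neg_ne hs0), prod_pair (neg_ne ht0)]

lemma sum_zs (G : Qb → ℕ) {i s : Qb} (hi : i ^ 2 = -1) (hs : s ^ 2 = 17) :
    ∑ β ∈ zs exh, G β = (G i + G (-i)) + (G s + G (-s)) + (G (i * s) + G (-(i * s))) := by
  have h1 := prod_zs (fun β => Multiplicative.ofAdd (G β)) hi hs
  rw [← ofAdd_sum] at h1
  exact Multiplicative.ofAdd.injective h1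

theorem ex_odd (δ : Fin 2 → ℚ) (hδ : δ 0 ≠ 0) (r : ℕ) (hr : Odd r) : ¬ PersistentDeg 2 r exg exh δ := by
  intro hper
  have hsqrt : ∀ q : ℚ, ∃ x : Qb, x ^ 2 = (q : Qb) := fun q => by
    obtain ⟨x, hx⟩ := IsAlgClosed.exists_pow_nat_eq (q : Qb) (n := 2) (by norm_num)
    exact ⟨x, hx⟩
  obtain ⟨i, hi⟩ := hsqrt (-1)
  obtain ⟨s, hs⟩ := hsqrt 17
  have hi' : i ^ 2 = -1 := by rw [hi]; push_cast; ring
  have hs' : s ^ 2 = 17 := by rw [hs]; push_cast; ring
  have h17 : ¬ IsSquare (17 : ℚ) := by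
    rw [show (17 : ℚ) = ((17 : ℕ) : ℚ) from rfl, Rat.isSquare_natCast_iff]
    exact (by norm_num : Nat.Prime 17).prime.not_isSquare
  have h34 : ¬ IsSquare (34 : ℚ) := by
    rw [show (34 : ℚ) = ((34 : ℕ) : ℚ) from rfl, Rat.isSquare_natCast_iff]
    rintro ⟨r, hr⟩
    have : r < 6 := by nlinarith
    interval_cases r <;> omega
  have h2 : ¬ IsSquare (2 : ℚ) := by
    rw [show (2 : ℚ) = ((2 : ℕ) : ℚ) from rfl, Rat.isSquare_natCast_iff]
    exact Nat.prime_two.prime.not_isSquare
  have hδW : (δ 0 : Qb) ≠ 0 := Rat.cast_ne_zero.2 hδ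
  have e50 : ∀ β : Qb, β ^ 2 = -1 → aeval β (exg 0) = 50 := fun β h => by rw [aeval_exg0, h]; norm_num
  have e68 : ∀ β : Qb, β ^ 2 = 17 → aeval β (exg 0) = 68 := fun β h => by rw [aeval_exg0, h]; norm_num
  have e34 : ∀ β : Qb, β ^ 2 = -17 → aeval β (exg 0) = 34 := fun β h => by rw [aeval_exg0, h]; norm_num
  have ht' : (i * s) ^ 2 = -17 := by rw [mul_pow, hi', hs']; ring
  have key : ∀ (A B C : Qb) (q a b : ℕ), A ^ (2 * q + 1) * B ^ (a + a) * C ^ (b + b) = A * (A ^ q * B ^ a * C ^ b) ^ 2 := by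
    intro A B C q a b
    ring
  -- the values
  have hval : ∀ ε : Qb → ℕ, ∏ β ∈ zs exh, (aeval β (exg 0)) ^ ε β =
      (50 : Qb) ^ (ε i + ε (-i)) * 68 ^ (ε s + ε (-s)) * 34 ^ (ε (i * s) + ε (-(i * s))) := by
    intro ε
    rw [prod_zs _ hi' hs', e50 i hi', e50 (-i) (by rw [neg_sq]; exact hi'), e68 s hs',
      e68 (-s) (by rw [neg_sq]; exact hs'), e34 _ ht', e34 _ (by rw [neg_sq]; exact ht'), ← pow_add, ← pow_add,
      ← pow_add]
  by_cases hA : ¬ IsSquare (50 / δ 0) ∧ ¬ IsSquare (50 / δ 0 * (-1))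
  · obtain ⟨w, hw⟩ := hsqrt (50 / δ 0)
    have hw0 : w ≠ 0 := by
      rintro rfl
      rw [zero_pow two_ne_zero] at hw
      have h3 : (50 / δ 0 : ℚ) = 0 := by exact_mod_cast hw.symm
      exact div_ne_zero (by norm_num) hδ h3
    obtain ⟨σ, hσi, hσs, hσw⟩ := fix_neg_neg (x := s) (y := w) (t := i) hs hw hi h17
      (nonsq_of_neg (by norm_num)) hA.1 hA.2
    obtain ⟨ε, hε, hsum, hy⟩ := hper σ
    obtain ⟨y, hyσ, hyk⟩ := hy 0
    rw [hval] at hyk
    rw [sum_zs ε hi' hs'] at hsum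
    have h3 : ε (-s) = ε s := by rw [← hσs, hε]
    have h4 : ε (-(i * s)) = ε (i * s) := by
      have : σ (i * s) = -(i * s) := by rw [map_mul, hσi, hσs]; ring
      rw [← this, hε]
    rw [h3, h4] at hyk hsum
    obtain ⟨q, hq⟩ : ∃ q, ε i + ε (-i) = 2 * q + 1 := by
      have h5 := Nat.odd_iff.1 hr
      rw [Nat.ModEq, h5] at hsum
      exact ⟨(ε i + ε (-i)) / 2, by omega⟩
    rw [hq] at hyk
    obtain ⟨c, hc⟩ : ∃ c : ℕ, c = 50 ^ q * 68 ^ ε s * 34 ^ ε (i * s) := ⟨_, rfl⟩
    have hc0 : (c : Qb) ≠ 0 := Nat.cast_ne_zero.2 (by rw [hc]; positivity)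
    refine moved (x := w * c) (y := y) ?_ ?_ (mul_ne_zero hw0 hc0) hyσ
    · rw [mul_pow, hw]
      have h6 : (50 : Qb) ^ (2 * q + 1) * 68 ^ (ε s + ε s) * 34 ^ (ε (i * s) + ε (i * s)) = 50 * (c : Qb) ^ 2 := by
        rw [key, hc]
        push_cast
        rfl
      rw [h6] at hyk
      push_cast
      field_simp
      linear_combination -hyk
    · rw [map_mul, hσw, map_natCast]
      ring
  · have hB : ¬ IsSquare (68 / δ 0) ∧ ¬ IsSquare (68 / δ 0 * 17) := by
      rw [not_and_or, not_not, not_not] at hA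
      rcases hA with ⟨r, hr⟩ | ⟨r, hr⟩
      · have hr0 : r ≠ 0 := by
          rintro rfl
          rw [mul_zero] at hr
          exact div_ne_zero (by norm_num) hδ hr
        have hd : δ 0 = 50 / (r * r) := by
          rw [← hr]
          field_simp
        constructor
        · rintro ⟨u, hu⟩
          apply h34
          refine ⟨5 * u / r, ?_⟩
          rw [hd] at hu
          field_simp at hu ⊢
          linarith
        · rintro ⟨u, hu⟩
          apply h2
          refine ⟨5 * u / (17 * r), ?_⟩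
          rw [hd] at hu
          field_simp at hu ⊢
          linarith
      · have hr0 : r ≠ 0 := by
          rintro rfl
          rw [mul_zero] at hr
          exact mul_ne_zero (div_ne_zero (by norm_num) hδ) (by norm_num) hr
        have hpos : 0 < r * r := mul_self_pos.2 hr0
        have hneg : 50 / δ 0 < 0 := by linarith
        have hd : δ 0 < 0 := by
          by_contra h3
          push Not at h3
          have : 0 ≤ 50 / δ 0 := by positivity
          linarith
        have h68 : 68 / δ 0 < 0 := div_neg_of_pos_of_neg (by norm_num) hd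
        exact ⟨nonsq_of_neg h68, nonsq_of_neg (by linarith)⟩
    obtain ⟨w, hw⟩ := hsqrt (68 / δ 0)
    have hw0 : w ≠ 0 := by
      rintro rfl
      rw [zero_pow two_ne_zero] at hw
      have h3 : (68 / δ 0 : ℚ) = 0 := by exact_mod_cast hw.symm
      exact div_ne_zero (by norm_num) hδ h3
    obtain ⟨σ, hσs, hσi, hσw⟩ := fix_neg_neg (x := i) (y := w) (t := s) hi hw hs
      (nonsq_of_neg (by norm_num)) (nonsq_of_neg (by norm_num)) hB.1 hB.2
    obtain ⟨ε, hε, hsum, hy⟩ := hper σ
    obtain ⟨y, hyσ, hyk⟩ := hy 0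
    rw [hval] at hyk
    rw [sum_zs ε hi' hs'] at hsum
    have h3 : ε (-i) = ε i := by rw [← hσi, hε]
    have h4 : ε (-(i * s)) = ε (i * s) := by
      have : σ (i * s) = -(i * s) := by rw [map_mul, hσi, hσs]; ring
      rw [← this, hε]
    rw [h3, h4] at hyk hsum
    obtain ⟨q, hq⟩ : ∃ q, ε s + ε (-s) = 2 * q + 1 := by
      have h5 := Nat.odd_iff.1 hr
      rw [Nat.ModEq, h5] at hsum
      exact ⟨(ε s + ε (-s)) / 2, by omega⟩
    rw [hq] at hyk
    obtain ⟨c, hc⟩ : ∃ c : ℕ, c = 68 ^ q * 50 ^ ε i * 34 ^ ε (i * s) := ⟨_, rfl⟩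
    have hc0 : (c : Qb) ≠ 0 := Nat.cast_ne_zero.2 (by rw [hc]; positivity)
    refine moved (x := w * c) (y := y) ?_ ?_ (mul_ne_zero hw0 hc0) hyσ
    · rw [mul_pow, hw]
      have h6 : (50 : Qb) ^ (ε i + ε i) * 68 ^ (2 * q + 1) * 34 ^ (ε (i * s) + ε (i * s)) = 68 * (c : Qb) ^ 2 := by
        rw [mul_comm ((50 : Qb) ^ (ε i + ε i)), key, hc]
        push_cast
        rfl
      rw [h6] at hyk
      push_cast
      field_simp
      linear_combination -hyk
    · rw [map_mul, hσw, map_natCast]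
      ring

end Pool.Agent.T9h60.OD
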