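import Mathlib
import Pool.Agent.T9h60.OD.Prime

set_option autoImplicit false

/-! The completions of a number field at the places over `p` contain the field `ℚ_p`. -/

namespace Pool.Agent.T9h60.OD
open Finset Polynomial NumberField IsDedekindDomain WithZero

variable {F : Type} [Field F] [NumberField F]

lemma val_rat_le (v : HeightOneSpectrum (𝓞 F)) {p : ℕ} [hp : Fact p.Prime] (hpv : (p : 𝓞 F) ∈ v.asIdeal)
    (q : ℚ) (k : ℕ) (hq : Rat.padicValuation p q ≤ exp (-(k : ℤ))) :
    v.valuation F (q : F) ≤ exp (-(k : ℤ)) := by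
  have hp0 : (p : ℚ) ≠ 0 := by exact_mod_cast hp.out.ne_zero
  obtain ⟨q', hq'⟩ : ∃ q' : ℚ, q' = q / (p : ℚ) ^ k := ⟨_, rfl⟩
  have hqq : q = (p : ℚ) ^ k * q' := by
    rw [hq', mul_div_cancel₀ _ (pow_ne_zero k hp0)]
  have h1 : Rat.padicValuation p q' ≤ 1 := by
    rw [hq', map_div₀, map_pow, Rat.padicValuation_self, ← exp_nsmul, nsmul_eq_mul, mul_neg, mul_one]
    exact (div_le_one₀ (zero_lt_iff.2 exp_ne_zero)).2 hq
  rw [Rat.padicValuation_le_one_iff] at h1
  have h2 : v.valuation F (q' : F) ≤ 1 := by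
    have h3 : (q' : F) = algebraMap (𝓞 F) F (q'.num : 𝓞 F) / algebraMap (𝓞 F) F ((q'.den : ℤ) : 𝓞 F) := by
      rw [map_intCast, map_intCast, Rat.cast_def]
      push_cast
      rfl
    have h4 := (HeightOneSpectrum.valuation_eq_one_iff_notMem (K := F) v).2
      (notMem_of (b := (q'.den : ℤ)) hp.out hpv (fun h5 => h1 (by exact_mod_cast h5)))
    rw [h3, map_div₀, h4, div_one]
    exact HeightOneSpectrum.valuation_le_one v _
  have h3 : v.valuation F (p : F) ≤ exp (-1 : ℤ) := by
    have h6 : v.valuation F ((p : 𝓞 F) : F) = v.valuation F (p : F) := by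
      congr 1
    have h4 : v.valuation F (p : F) < 1 :=
      lt_of_eq_of_lt h6.symm ((HeightOneSpectrum.valuation_lt_one_iff_mem (K := F) v (p : 𝓞 F)).2 hpv)
    have h5 : v.valuation F (p : F) ≠ 0 := by
      rw [Valuation.ne_zero_iff]
      exact_mod_cast hp.out.ne_zero
    rw [← exp_log h5, ← exp_zero, exp_lt_exp] at h4
    rw [← exp_log h5, exp_le_exp]
    omega
  rw [hqq, Rat.cast_mul, Rat.cast_pow, map_mul, map_pow, Rat.cast_natCast]
  calc v.valuation F (p : F) ^ k * v.valuation F (q' : F) ≤ (exp (-1 : ℤ)) ^ k * 1 :=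
        mul_le_mul' (pow_le_pow_left' h3 k) h2
    _ = exp (-(k : ℤ)) := by rw [mul_one, ← exp_nsmul, nsmul_eq_mul, mul_neg, mul_one]

set_option backward.isDefEq.respectTransparency.types false in
open MonoidWithZeroHom.ValueGroup₀ in
theorem exists_emb (v : HeightOneSpectrum (𝓞 F)) {p : ℕ} [hp : Fact p.Prime] (hpv : (p : 𝓞 F) ∈ v.asIdeal) :
    Nonempty (ℚ_[p] →+* v.adicCompletion F) := by
  let α := WithVal (Rat.padicValuation p)
  let i : α →+* ℚ_[p] := (Rat.castHom ℚ_[p]).comp (WithVal.equiv (Rat.padicValuation p)).toRingHom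
  let f : α →+* v.adicCompletion F :=
    ((algebraMap F (v.adicCompletion F)).comp (algebraMap ℚ F)).comp (WithVal.equiv (Rat.padicValuation p)).toRingHom
  have hi : IsUniformInducing i := Padic.isUniformInducing_cast_withVal
  have hd : DenseRange i := Padic.isDenseInducing_cast_withVal.dense
  have hf : UniformContinuous f := by
    refine uniformContinuous_of_continuousAt_zero f.toAddMonoidHom ?_
    intro U hU
    have hU' : U ∈ nhds (0 : v.adicCompletion F) := by
      have h1 : f.toAddMonoidHom 0 = 0 := map_zero f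
      rwa [h1] at hU
    rw [Valued.mem_nhds_zero] at hU'
    obtain ⟨γ, hγ⟩ := hU'
    have hG0 : embedding γ.1 ≠ 0 := embedding_unit_ne_zero _
    obtain ⟨k, hk⟩ : ∃ k : ℕ, (exp (-(k : ℤ)) : WithZero (Multiplicative ℤ)) < embedding γ.1 := by
      refine ⟨(log (embedding γ.1)).natAbs + 1, ?_⟩
      rw [← lt_log_iff_exp_lt hG0]
      push_cast
      have := neg_abs_le (log (embedding γ.1))
      linarith
    have hpk : Valued.v (R := α) ((p : α) ^ k) = exp (-(k : ℤ)) := by
      change Valued.v (R := WithVal (Rat.padicValuation p)) ((p : WithVal (Rat.padicValuation p)) ^ k) = _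
      simp only [← WithVal.val_apply_equiv, map_pow, map_natCast, Rat.padicValuation_self,
        Int.reduceNeg, exp_neg, inv_pow, ← exp_nsmul, nsmul_eq_mul, mul_one]
    rw [Filter.mem_map, Valued.mem_nhds_zero]
    refine ⟨Units.mk0 (Valued.v.restrict ((p : α) ^ k)) (by
      rw [Ne, Valuation.restrict_eq_zero_iff, hpk]
      exact exp_ne_zero), ?_⟩
    intro x hx
    rw [Set.mem_ofPred_eq, Units.val_mk0, Valuation.restrict_lt_iff, hpk] at hx
    apply hγ
    rw [Set.mem_ofPred_eq, Valuation.restrict_lt_iff_lt_embedding]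
    refine lt_of_le_of_lt ?_ hk
    have h1 := val_rat_le v hpv (WithVal.equiv (Rat.padicValuation p) x) k hx.le
    rw [← val_F] at h1
    exact h1
  exact ⟨IsDenseInducing.extendRingHom hi hd hf⟩

end Pool.Agent.T9h60.OD
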