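import Mathlib
import Pool.Agent.T9h60.OD.Emb
import Pool.Agent.T9h60.OD.Crit
import Pool.Agent.R925.FD.Ex
import Pool.Agent.R925.FD.Two

set_option autoImplicit false

/-! Points over number fields, and varieties over `ℚ` which have a morphism to a curve `C a` over a number field. -/

namespace Pool.Agent.T9h60.OD
open Finset Polynomial NumberField IsDedekindDomain WithZero TensorProduct
open Pool.Agent.R925.FD (hom hom_map hom_mul hom_one hom_div hom_zero_right CurveHasPoint coprime_field)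

/-- `δ` is a class: the `δ k` are not zero and their product is `b * t ^ n`. -/
def IsClassF {K : Type} [Fintype K] (n : ℕ) (b : ℤ) {F : Type} [Field F] (δ : K → F) : Prop :=
  (∀ k, δ k ≠ 0) ∧ ∃ t : F, ∏ k, δ k = b * t ^ n

/-- A point of the curve over a field lifts to a covering. -/
theorem exists_classF {K : Type} [Fintype K] (n m : ℕ) (hn : 0 < n) (b a : ℤ)
    (hb : b ≠ 0) (g : K → ℤ[X]) (h : ℤ[X]) (hg0 : ∀ k, g k ≠ 0)
    (hgg : ∀ k l, k ≠ l →
      IsCoprime ((g k).map (Int.castRingHom ℚ)) ((g l).map (Int.castRingHom ℚ)))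
    {F : Type} [Field F] [CharZero F] (hC : CurveHasPoint n m b a g h F) :
    ∃ δ : K → F, IsClassF n b δ ∧ LocalPoint n m a g h δ F := by
  classical
  obtain ⟨z, w, x, y, hzw, hy, hx⟩ := hC
  by_cases h0 : ∃ k, hom (g k) z w = 0
  · obtain ⟨k, hk⟩ := h0
    have hl : ∀ l, l ≠ k → hom (g l) z w ≠ 0 := fun l hlk =>
      coprime_field (hg0 k) (hgg k l hlk.symm) hzw hk
    have hP : ∏ l ∈ univ.erase k, hom (g l) z w ≠ 0 :=
      prod_ne_zero_iff.2 fun l h1 => hl l (ne_of_mem_erase h1)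
    have hbq : (b : F) ≠ 0 := Int.cast_ne_zero.2 hb
    refine ⟨fun l => if l = k then b * (∏ l ∈ univ.erase k, hom (g l) z w)⁻¹ else hom (g l) z w,
      ⟨fun l => ?_, 1, ?_⟩, z, w, x, hzw, hx, fun l => ?_⟩
    · simp only
      split_ifs with h1
      · exact mul_ne_zero hbq (inv_ne_zero hP)
      · exact hl l h1
    · rw [← mul_prod_erase univ _ (mem_univ k), if_pos rfl]
      have h2 : ∏ l ∈ univ.erase k, (if l = k then (b : F) * (∏ l ∈ univ.erase k, hom (g l) z w)⁻¹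
          else hom (g l) z w) = ∏ l ∈ univ.erase k, hom (g l) z w :=
        prod_congr rfl fun l h1 => if_neg (ne_of_mem_erase h1)
      rw [h2, one_pow, mul_assoc, inv_mul_cancel₀ hP]
    · by_cases h1 : l = k
      · refine ⟨0, ?_⟩
        rw [h1, hk, zero_pow hn.ne', mul_zero]
      · refine ⟨1, ?_⟩
        simp only
        rw [if_neg h1, one_pow, mul_one]
        rfl
  · push Not at h0
    refine ⟨fun k => hom (g k) z w, ⟨h0, y, hy.symm⟩, z, w, x, hzw, hx, fun k => ⟨1, ?_⟩⟩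
    rw [one_pow, mul_one]
    rfl

/-- A point over `F` is a point over all extensions. -/
lemma local_of_global {K : Type} {n m : ℕ} {a : ℤ} {g : K → ℤ[X]} {h : ℤ[X]} {F : Type} [Field F] {δ : K → F}
    (hC : LocalPoint n m a g h δ F) (E : Type) [Field E] [Algebra F E] : LocalPoint n m a g h δ E := by
  obtain ⟨z, w, x, hzw, hx, hy⟩ := hC
  have hinj := FaithfulSMul.algebraMap_injective F E
  have h0 : ∀ u : F, u ≠ 0 → algebraMap F E u ≠ 0 := fun u hu => by
    rwa [Ne, map_eq_zero_iff _ hinj]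
  refine ⟨algebraMap F E z, algebraMap F E w, algebraMap F E x, hzw.imp (h0 z) (h0 w), ?_, fun k => ?_⟩
  · rw [← hom_map, ← hx, map_mul, map_pow, map_intCast]
  · obtain ⟨y, hyk⟩ := hy k
    refine ⟨algebraMap F E y, ?_⟩
    rw [← hom_map, hyk, map_mul, map_pow]
    rfl

variable {K : Type} [Fintype K] {n m : ℕ} {b a : ℤ} {g : K → ℤ[X]} {h : ℤ[X]}

/-- `U` is the affine variety over `ℚ` given by the equations `f = 0`, `f ∈ S`, in `N` variables, and the polynomials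
`Z, W, X, Y` over `F` define a morphism over `F` from `U` to the curve
`C a : b y ^ n = ∏ k, G k (z, w)`, `a x ^ m = H (z, w)`. -/
def IsMorphism (n m : ℕ) (b a : ℤ) (g : K → ℤ[X]) (h : ℤ[X]) {N : ℕ} (S : Set (MvPolynomial (Fin N) ℚ))
    {F : Type} [Field F] [Algebra ℚ F] (Z W X Y : MvPolynomial (Fin N) F) : Prop :=
  ∀ (E : Type) [Field E] [Algebra F E] (P : Fin N → E),
    (∀ f ∈ S, MvPolynomial.eval₂ ((algebraMap F E).comp (algebraMap ℚ F)) P f = 0) →
      (MvPolynomial.aeval P Z ≠ 0 ∨ MvPolynomial.aeval P W ≠ 0) ∧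
      (b : E) * (MvPolynomial.aeval P Y) ^ n = ∏ k, hom (g k) (MvPolynomial.aeval P Z) (MvPolynomial.aeval P W) ∧
      (a : E) * (MvPolynomial.aeval P X) ^ m = hom h (MvPolynomial.aeval P Z) (MvPolynomial.aeval P W)

omit [Fintype K] in
/-- The covering `V δ` of `U` has a point over the field `k`: there are a point `P` of `U` over `k` and elements
`y j` of `F ⊗ k` with `G j (Z (P), W (P)) = δ j * y j ^ n` for all `j`. -/
def PullbackHasPoint (n : ℕ) (g : K → ℤ[X]) {N : ℕ} (S : Set (MvPolynomial (Fin N) ℚ))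
    {F : Type} [Field F] [Algebra ℚ F] (Z W : MvPolynomial (Fin N) F) (δ : K → F) (k : Type) [Field k]
    [Algebra ℚ k] : Prop :=
  ∃ P : Fin N → k, (∀ f ∈ S, MvPolynomial.aeval P f = 0) ∧
    ∀ j, ∃ y : F ⊗[ℚ] k, hom (g j) (MvPolynomial.aeval (fun i => (1 : F) ⊗ₜ[ℚ] P i) Z)
      (MvPolynomial.aeval (fun i => (1 : F) ⊗ₜ[ℚ] P i) W) = algebraMap F (F ⊗[ℚ] k) (δ j) * y ^ n

lemma hom_map' (f : ℤ[X]) {R₁ R₂ : Type} [CommRing R₁] [CommRing R₂] (φ : R₁ →+* R₂) (z w : R₁) :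
    φ (hom f z w) = hom f (φ z) (φ w) := hom_map f φ z w

theorem local_of_pullback {F : Type} [Field F] [NumberField F] {N : ℕ} {S : Set (MvPolynomial (Fin N) ℚ)}
    {Z W X Y : MvPolynomial (Fin N) F} (hU : IsMorphism n m b a g h S Z W X Y) {δ : K → F}
    (v : HeightOneSpectrum (𝓞 F)) {p : ℕ} [hp : Fact p.Prime] (hpv : (p : 𝓞 F) ∈ v.asIdeal)
    (hC : PullbackHasPoint n g S Z W δ ℚ_[p]) : LocalPoint n m a g h δ (v.adicCompletion F) := by
  obtain ⟨P, hP, hy⟩ := hC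
  obtain ⟨ψ⟩ := exists_emb v hpv
  let ψ' : ℚ_[p] →ₐ[ℚ] v.adicCompletion F := ψ.toRatAlgHom
  let θ : F ⊗[ℚ] ℚ_[p] →ₐ[F] v.adicCompletion F :=
    Algebra.TensorProduct.lift (Algebra.ofId F _) ψ' (fun _ _ => mul_comm _ _)
  have hθ : ∀ f : MvPolynomial (Fin N) F, θ (MvPolynomial.aeval (fun i => (1 : F) ⊗ₜ[ℚ] P i) f) =
      MvPolynomial.aeval (fun i => ψ (P i)) f := by
    intro f
    rw [MvPolynomial.comp_aeval_apply]
    congr 2
    funext i
    refine (Algebra.TensorProduct.lift_tmul (Algebra.ofId F (v.adicCompletion F)) ψ' (fun _ _ => mul_comm _ _)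
      1 (P i)).trans ?_
    rw [map_one, one_mul]
    rfl
  obtain ⟨h1, -, h3⟩ := hU (v.adicCompletion F) (fun i => ψ (P i)) (by
    intro f hf
    have h4 := congrArg ψ (hP f hf)
    rw [map_zero, MvPolynomial.aeval_def, MvPolynomial.eval₂_comp_left] at h4
    rw [← h4]
    congr 1
    exact Subsingleton.elim _ _)
  refine ⟨_, _, _, h1, h3, fun j => ?_⟩
  obtain ⟨y, hyj⟩ := hy j
  refine ⟨θ y, ?_⟩
  rw [← hθ, ← hθ]
  have h4 := congrArg θ hyj
  rw [map_mul, map_pow, AlgHom.commutes] at h4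
  rw [← h4]
  exact (hom_map' (g j) θ.toRingHom _ _).symm

theorem curve_of_rational {F : Type} [Field F] [Algebra ℚ F] {N : ℕ} {S : Set (MvPolynomial (Fin N) ℚ)}
    {Z W X Y : MvPolynomial (Fin N) F} (hU : IsMorphism n m b a g h S Z W X Y)
    (hP : ∃ P : Fin N → ℚ, ∀ f ∈ S, MvPolynomial.eval P f = 0) : CurveHasPoint n m b a g h F := by
  obtain ⟨P, hP⟩ := hP
  obtain ⟨h1, h2, h3⟩ := hU F (fun i => algebraMap ℚ F (P i)) (by
    intro f hf
    have h4 := congrArg (algebraMap ℚ F) (hP f hf)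
    rw [map_zero, ← MvPolynomial.eval₂_id, MvPolynomial.eval₂_comp_left] at h4
    rw [← h4]
    rfl)
  exact ⟨_, _, _, _, h1, h2, h3⟩

/-- every place contains a prime number -/
lemma exists_prime_mem {F : Type} [Field F] [NumberField F] (v : HeightOneSpectrum (𝓞 F)) :
    ∃ p : ℕ, p.Prime ∧ (p : 𝓞 F) ∈ v.asIdeal := by
  classical
  have hex : ∃ N : ℕ, 0 < N ∧ (N : 𝓞 F) ∈ v.asIdeal :=
    ⟨Ideal.absNorm v.asIdeal, Nat.pos_of_ne_zero (Ideal.absNorm_eq_zero_iff.not.2 v.ne_bot), Ideal.absNorm_mem _⟩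
  obtain ⟨h1, h2⟩ := Nat.find_spec hex
  set N := Nat.find hex with hN
  have hmin : ∀ M : ℕ, 0 < M → (M : 𝓞 F) ∈ v.asIdeal → N ≤ M := fun M hM hM' => Nat.find_min' hex ⟨hM, hM'⟩
  have hN1 : N ≠ 1 := by
    intro h3
    rw [h3, Nat.cast_one] at h2
    exact v.isPrime.ne_top ((Ideal.eq_top_iff_one _).2 h2)
  refine ⟨N, ?_, h2⟩
  by_contra h3
  obtain ⟨q, hq, hqN⟩ := Nat.exists_prime_and_dvd hN1
  obtain ⟨r, hr⟩ := hqN
  have hq2 := hq.two_le
  have hr0 : 0 < r := Nat.pos_of_ne_zero (by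
    rintro rfl
    omega)
  rw [hr, Nat.cast_mul] at h2
  rcases v.isPrime.mem_or_mem h2 with h4 | h4
  · have h5 := hmin q hq.pos h4
    have h6 : r = 1 := by
      rw [hr] at h5
      nlinarith
    rw [h6, mul_one] at hr
    rw [hr] at h3
    exact h3 hq
  · have h5 := hmin r hr0 h4
    rw [hr] at h5
    nlinarith

end Pool.Agent.T9h60.OD
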