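import Mathlib
import Pool.Agent.T9h60.OD.Var
import Pool.Agent.T9h60.FD.Window
import Pool.Agent.T9h60.FD.PMain

set_option autoImplicit false

/-! Almost all integers of short intervals, and the integers divisible by all primes of an interval. -/

namespace Pool.Agent.T9h60.OD
open Finset Polynomial Filter
open Pool.Agent.W401.Cheb Pool.Agent.W723.SecC

open Pool.Agent.T9h60.FD (FrobCrit frob_window poly_exact common)

theorem window_of_crit {D : ℕ} {P : ℤ → Prop} (hP : FrobCrit D P) {lam mu : ℝ} (hlam : 0 < lam) (hmu : lam < mu) :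
    ∃ y₀ : ℕ, ∀ y : ℕ, y₀ ≤ y → ∀ a : ℤ, (∀ p : ℕ, p.Prime → lam * y < p → (p : ℝ) ≤ mu * y →
      (padicValInt p a).Coprime D) → P a := by
  obtain ⟨α, hα, Q, hQ, hcrit⟩ := hP
  have h1 : ∀ i : α, ∀ᶠ y : ℕ in atTop, ∃ p ∈ Q i, lam * y < p ∧ (p : ℝ) ≤ mu * y := by
    intro i
    obtain ⟨L, iF, iN, iG, τ, m, hm, hi⟩ := hQ i
    rw [hi]
    exact frob_window L τ m hm hlam hmu
  obtain ⟨y₀, hy₀⟩ := eventually_atTop.1 (Filter.eventually_all.2 h1)
  refine ⟨y₀, fun y hy a ha => hcrit a (fun i => ?_)⟩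
  obtain ⟨p, hp, h4, h5⟩ := hy₀ y hy i
  obtain ⟨L, iF, iN, iG, τ, m, hm, hi⟩ := hQ i
  have hpp : p.Prime := by
    rw [hi] at hp
    exact hp.1
  exact ⟨p, hp, ha p hpp h4 h5⟩

open Classical in
theorem short_of_crit {D : ℕ} {P : ℤ → Prop} (hP : FrobCrit D P) :
    ∃ κ C : ℝ, 0 < κ ∧ 0 ≤ C ∧ ∀ (M : ℤ) (H : ℕ), 3 ≤ H →
      (((Ioc M (M + H)).filter fun a => ¬ P a).card : ℝ) ≤ C * H * (Real.log H) ^ (-κ) := by
  obtain ⟨α, hα, Q, hQ, hcrit⟩ := hP
  have hstep : ∀ i, ∃ κ : ℝ, 0 < κ ∧ ∃ C₂ : ℝ, 0 ≤ C₂ ∧ ∀ (M : ℤ) (H : ℕ), 3 ≤ H →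
      (((Ioc M (M + H)).filter fun a => ∀ p ∈ Q i, (p : ℤ) ∣ a → (p : ℤ) ^ 2 ∣ a).card : ℝ) ≤
        C₂ * H * (Real.log H) ^ (-κ) := by
    intro i
    obtain ⟨L, iF, iN, iG, τ, m, hm, hi⟩ := hQ i
    have hpr : ∀ p ∈ Q i, p.Prime := by
      intro p hp
      rw [hi] at hp
      exact hp.1
    obtain ⟨δ, C, hδ, hcount⟩ := count L τ m hm
    rw [← hi] at hcount
    obtain ⟨κ, hκ, C₂, hC₂, h⟩ := poly_exact (Q i) hpr δ C hδ hcount X (fun _ => 0)
      (fun p _ => by rw [eval_X]; exact dvd_zero _) (fun p hp => by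
        rw [derivative_X, eval_one]
        intro h1
        have h2 := Int.le_of_dvd one_pos h1
        have h3 := (hpr p hp).two_le
        omega) False (fun h1 => h1.elim)
    refine ⟨κ, hκ, C₂, hC₂, fun M H hH => ?_⟩
    have h1 := h M H hH
    simp only [false_imp_iff, true_and, if_false, add_zero, eval_X] at h1
    exact h1
  choose κ hκ C hC hbound using hstep
  obtain ⟨κ₀, hκ₀, hκ₁, C₀, hC₀, hC₁⟩ := common κ C hκ hC
  refine ⟨κ₀, C₀, hκ₀, hC₀, fun M H hH => ?_⟩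
  have hH0 : (0 : ℝ) ≤ H := Nat.cast_nonneg _
  have hHr : (3 : ℝ) ≤ H := by exact_mod_cast hH
  have hlog : 1 ≤ Real.log H := by
    rw [Real.le_log_iff_exp_le (by linarith)]
    have := Real.exp_one_lt_d9
    linarith
  have hsub : ((Ioc M (M + H)).filter fun t => ¬ P t) ⊆
      (univ : Finset α).biUnion fun i => (Ioc M (M + H)).filter fun a =>
        ∀ p ∈ Q i, (p : ℤ) ∣ a → (p : ℤ) ^ 2 ∣ a := by
    intro t ht
    obtain ⟨h1, h3⟩ := mem_filter.1 ht
    by_contra hcon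
    apply h3
    apply hcrit
    intro i
    by_contra h4
    push Not at h4
    apply hcon
    refine mem_biUnion.2 ⟨i, mem_univ i, mem_filter.2 ⟨h1, fun p hp hpt => ?_⟩⟩
    by_contra h5
    obtain ⟨L, iF, iN, iG, τ, m, hm, hi⟩ := hQ i
    have hpp : p.Prime := by
      rw [hi] at hp
      exact hp.1
    have hF : Fact p.Prime := ⟨hpp⟩
    have ht0 : t ≠ 0 := by
      rintro rfl
      exact h5 (dvd_zero _)
    refine h4 p hp ?_
    have h6 : padicValInt p t = 1 := by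
      have h7 : ¬ 2 ≤ padicValInt p t := fun h8 => h5 ((padicValInt_dvd_iff 2 t).2 (Or.inr h8))
      have h9 : 1 ≤ padicValInt p t := ((padicValInt_dvd_iff 1 t).1 (by rwa [pow_one])).resolve_left ht0
      omega
    rw [h6]
    exact Nat.coprime_one_left _
  have h1 : (((Ioc M (M + H)).filter fun t => ¬ P t).card : ℝ) ≤ ∑ i, C i * H * (Real.log H) ^ (-κ i) := by
    refine (Nat.cast_le.2 ((card_le_card hsub).trans card_biUnion_le)).trans ?_
    push_cast
    exact sum_le_sum fun i _ => hbound i M H hH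
  refine h1.trans ?_
  have h2 : ∀ i ∈ (univ : Finset α), C i * H * (Real.log H) ^ (-κ i) ≤ C i * H * (Real.log H) ^ (-κ₀) := fun i _ =>
    mul_le_mul_of_nonneg_left (Real.rpow_le_rpow_of_exponent_le hlog (neg_le_neg (hκ₁ i)))
      (mul_nonneg (hC i) hH0)
  refine (sum_le_sum h2).trans ?_
  rw [← sum_mul, ← sum_mul]
  exact mul_le_mul_of_nonneg_right (mul_le_mul_of_nonneg_right hC₁ hH0) (Real.rpow_nonneg (by linarith) _)

end Pool.Agent.T9h60.OD
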